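import Pool.Agent.Helper97.DY.N4
import Pool.Agent.Helper89.DY.Mir2

/-!
# GAP1, `h ≠ d2`, the family (B): the chamber `(t; -(t + d2), h)` (MP_d13a5e_al)
-/

set_option autoImplicit false

namespace Pool.Agent.Helper97.DY

open Set
open _root_.DY (Z1 e0Z1 Xs XA OFA relB89 Tri sq CP Str Canon C01 ult_low89 rf)
open _root_.DY.St29 (Ix ix_gen kinf_ex)
open Pool.Agent.Helper62.DY (RT rt_of_tri)
open Pool.Agent.Helper32.DY (fw fe fe_z fe_n fe_r fm fm_rec Two z1_nonneg z1_one bf)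

variable {E : Type*} [AddCommGroup E] [Module ℝ E]
variable {Ψ : Set E} {B : E →ₗ[ℝ] E →ₗ[ℝ] ℝ} {ρ φ : E →ₗ[ℝ] ℝ} {t d1 d2 x x' : E}
variable {g x1 x2 g' x1' x2' : ℝ}

/-- the simple system `(t; -(t + d2), d1 + 2 b d2)` -/
theorem tri_B {b : ℝ} (hT : Tri Ψ B t d1 d2) (h1 : B t d1 = 0) (h2 : B t d2 = -(1 / 2)) (hb : B d1 d2 = -b) :
    Tri Ψ B t (-(t + d2)) (d1 + (2 * b) • d2) := by
  have s2 := hT.symm d2 t
  have s3 := hT.symm d2 d1
  have s1 := hT.symm d1 t
  have o2 := hT.one d2 hT.hc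
  have A : Tri Ψ B (-d2) (t + (1 : ℝ) • d2) (d1 + (2 * b) • d2) :=
    Tri.flip89 (x := 1) (y := 2 * b) hT.rot89.rot89 (by rw [s2, h2]; norm_num) (by rw [s3, hb]; ring) rfl rfl
  have A' : Tri Ψ B (t + (1 : ℝ) • d2) (d1 + (2 * b) • d2) (-d2) := A.rot89
  have C : Tri Ψ B (-(t + (1 : ℝ) • d2)) (d1 + (2 * b) • d2) t := by
    refine Tri.flip89 (x := 0) (y := 1) A' ?_ ?_ (by module) (by module)
    · simp only [map_add, map_smul, LinearMap.add_apply, LinearMap.smul_apply, smul_eq_mul, h1, h2, s3, hb, o2]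
      ring
    · simp only [map_add, map_smul, map_neg, LinearMap.add_apply, LinearMap.smul_apply, smul_eq_mul, h2, o2]
      ring
  have D : Tri Ψ B t (-(t + (1 : ℝ) • d2)) (d1 + (2 * b) • d2) := C.rot89.rot89
  rw [one_smul] at D
  exact D

/-- **family (B)** -/
theorem famB_XA {b : ℝ} (X : XA Ψ B ρ φ t d1 d2 x x' g x1 x2 g' x1' x2') (h1 : B t d1 = 0)
    (h2 : B t d2 = -(1 / 2)) (hb : B d1 d2 = -b) (hb0 : 0 < b) (h3 : 3 / 4 < b ^ 2)
    (fh : φ d1 + 2 * b * φ d2 < 0) (fa : 0 ≤ 2 * b * φ d1 + (4 * b ^ 2 - 1) * φ d2)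
    (hu : 0 < 2 * b * x1 - x2) (hu' : 0 < 2 * b * x1' - x2') (hv : 0 < 2 * b * x2 - (4 * b ^ 2 - 1) * x1)
    (hv' : 0 ≤ 2 * b * x2' - (4 * b ^ 2 - 1) * x1') : False := by
  have hT := X.tri
  have hT' := tri_B hT h1 h2 hb
  have s1 := hT.symm d1 t
  have s2 := hT.symm d2 t
  have s3 := hT.symm d2 d1
  have o0 := hT.one t hT.ha
  have o1 := hT.one d1 hT.hb
  have o2 := hT.one d2 hT.hc
  have hR := rt_of_tri hT'
  have c1 : -B t (-(t + d2)) = 1 / 2 := by
    rw [map_neg, map_add, o0, h2]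
    norm_num
  have c2 : -B t (d1 + (2 * b) • d2) = b := by
    rw [map_add, map_smul, smul_eq_mul, h1, h2]
    ring
  have c3 : -B (-(t + d2)) (d1 + (2 * b) • d2) = 0 := by
    simp only [map_neg, map_add, map_smul, LinearMap.neg_apply, LinearMap.add_apply, smul_eq_mul, h1, h2,
      s3, hb, o2]
    ring
  have hBt : B t (d1 + (2 * b) • d2) = -b := by linarith only [c2]
  rw [c1, c2, c3] at hR
  have ex : x = (g + (2 * b * x1 - x2)) • t + (2 * b * x1 - x2) • (-(t + d2)) + x1 • (d1 + (2 * b) • d2) := by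
    rw [X.e]
    module
  have ex' : x' = (g' + (2 * b * x1' - x2')) • t + (2 * b * x1' - x2') • (-(t + d2)) +
      x1' • (d1 + (2 * b) • d2) := by
    rw [X.e']
    module
  have hx : (g + (2 * b * x1 - x2)) • t + (2 * b * x1 - x2) • (-(t + d2)) + x1 • (d1 + (2 * b) • d2) ∈ Ψ := by
    rw [← ex]
    exact X.xm
  have hx' : (g' + (2 * b * x1' - x2')) • t + (2 * b * x1' - x2') • (-(t + d2)) +
      x1' • (d1 + (2 * b) • d2) ∈ Ψ := by
    rw [← ex']
    exact X.xm'
  have hK : B x x' ≤ 0 := by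
    rw [hT.symm]
    exact X.cxx.nonpos hT.sys X.xm X.xm'
  have N := X.c.nrm
  have N' := X.c'.nrm
  have F := X.c.fz
  have F' := X.c'.fz
  have obt := X.c.obt
  rw [h1, h2, hb] at N N'
  rw [h1, h2] at obt
  have st := X.st
  -- `β ≥ 0`
  obtain ⟨u, hud⟩ : ∃ u, u = 2 * b * x1 - x2 := ⟨_, rfl⟩
  obtain ⟨v, hvd⟩ : ∃ v, v = 2 * b * x2 - (4 * b ^ 2 - 1) * x1 := ⟨_, rfl⟩
  obtain ⟨u', hud'⟩ : ∃ u', u' = 2 * b * x1' - x2' := ⟨_, rfl⟩
  obtain ⟨v', hvd'⟩ : ∃ v', v' = 2 * b * x2' - (4 * b ^ 2 - 1) * x1' := ⟨_, rfl⟩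
  have k1 : x1 = 2 * b * u + v := by rw [hud, hvd]; ring
  have k2 : x2 = (4 * b ^ 2 - 1) * u + 2 * b * v := by rw [hud, hvd]; ring
  have k1' : x1' = 2 * b * u' + v' := by rw [hud', hvd']; ring
  have k2' : x2' = (4 * b ^ 2 - 1) * u' + 2 * b * v' := by rw [hud', hvd']; ring
  have rel := relB89 (b := b) (c := (4 * b ^ 2 - 1) / 2) (d := b) (g := g) (u := u) (v := v) (g' := g') (u' := u')
    (v' := v') (fa := 2 * b * φ d1 + (4 * b ^ 2 - 1) * φ d2) (fh := φ d1 + 2 * b * φ d2) (K := B x x')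
    (by rw [k1, k2] at N; linear_combination N) (by rw [k1, k2] at F; linear_combination F)
    (by rw [k1', k2'] at F'; linear_combination F') (by
      rw [X.e, X.e', k1, k2, k1', k2']
      simp only [map_add, map_smul, LinearMap.add_apply, LinearMap.smul_apply, smul_eq_mul, o0, o1, o2, s1, s2,
        s3, h1, h2, hb]
      ring)
  have hD : 0 < v * u' - u * v' := by
    have e : v * u' - u * v' = x2 * x1' - x1 * x2' := by
      rw [k1, k2, k1', k2']
      ring
    rw [e]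
    linarith only [st]
  rw [← hud] at hu
  rw [← hud'] at hu'
  rw [← hvd] at hv
  rw [← hvd'] at hv'
  have hC : 0 ≤ (4 * b ^ 2 - 1) / 2 * u + b * v - g := by
    rw [k1, k2] at obt
    linarith only [obt]
  have hA : 0 ≤ (4 * b ^ 2 - 1) / 2 * g - u - b * v := by
    have e1 : 0 ≤ (v * u' - u * v') * (((4 * b ^ 2 - 1) / 2 * g - u - b * v) -
        (2 * b * φ d1 + (4 * b ^ 2 - 1) * φ d2) * ((4 * b ^ 2 - 1) / 2 * u + b * v - g)) := by
      rw [rel]
      have := mul_nonneg hv.le (by linarith only [hK] : 0 ≤ -B x x')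
      linarith only [hv', this]
    have e2 := nonneg_of_mul_nonneg_right e1 hD
    have e3 := mul_nonneg fa hC
    linarith
  -- `φ d2 < -1`
  have f2 : 1 < -φ d2 := by
    have e1 : g = -(2 * b * φ d1 + (4 * b ^ 2 - 1) * φ d2) * u - (φ d1 + 2 * b * φ d2) * v := by
      rw [k1, k2] at F
      linear_combination F
    have e2 : (4 * b ^ 2 - 1) / 2 * g ≤ (4 * b ^ 2 - 1) / 2 * (-(φ d1 + 2 * b * φ d2) * v) := by
      apply mul_le_mul_of_nonneg_left _ (by linarith only [h3])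
      have := mul_nonneg fa hu.le
      linarith only [e1, this]
    have e3 : b * v < (4 * b ^ 2 - 1) / 2 * (-(φ d1 + 2 * b * φ d2)) * v := by linarith only [hu, hA, e2]
    have e4 := lt_of_mul_lt_mul_right e3 hv.le
    have e5 : 2 * b * -(φ d1 + 2 * b * φ d2) ≤ -φ d2 := by linarith only [fa]
    have e6 : (4 * b ^ 2 - 1) / 2 * (2 * b * -(φ d1 + 2 * b * φ d2)) ≤ (4 * b ^ 2 - 1) / 2 * -φ d2 :=
      mul_le_mul_of_nonneg_left e5 (by linarith only [h3])
    have e7 : 2 * b * b < 2 * b * ((4 * b ^ 2 - 1) / 2 * (-(φ d1 + 2 * b * φ d2))) :=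
      mul_lt_mul_of_pos_left e4 (by linarith only [hb0])
    have e8 : (4 * b ^ 2 - 1) / 2 * 1 < (4 * b ^ 2 - 1) / 2 * -φ d2 := by linarith only [e6, e7]
    exact lt_of_mul_lt_mul_left e8 (by linarith only [h3])
  have hu1 : 1 ≤ u := by
    have := (hR.z1 hx (by rw [← hud]; exact hu)).2.1
    rw [← hud] at this
    exact this
  have hu1' : 1 ≤ u' := by
    have := (hR.z1 hx' (by rw [← hud']; exact hu')).2.1
    rw [← hud'] at this
    exact this
  rw [← hud] at ex hx
  rw [← hud'] at ex' hx'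
  have T : Two (1 / 2) b 0 (fun g x1 x2 => g • t + x1 • (-(t + d2)) + x2 • (d1 + (2 * b) • d2) ∈ Ψ)
      (-φ (d1 + (2 * b) • d2)) (-1 - φ d2) (g' + u') u' x1' (g + u) u x1 :=
    { h := hR
      hx := hx'
      hy := hx
      p1 := hu1'
      v1 := hu1
      p2 := by linarith only [X.p1']
      q2 := X.p1
      fx := by
        rw [map_add, map_smul, smul_eq_mul, k1']
        rw [k1', k2'] at F'
        linear_combination F'
      fy := by
        rw [map_add, map_smul, smul_eq_mul, k1]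
        rw [k1, k2] at F
        linear_combination F
      hf := by linarith only [f2]
      hκ := by
        rw [map_add, map_smul, smul_eq_mul]
        linarith only [fh]
      st := by
        have e : x1 * u' - x1' * u = v * u' - u * v' := by
          rw [k1, k1']
          ring
        linarith only [hD, e]
      hB := by
        have e : bf (1 / 2) b 0 (g' + u') u' x1' (g + u) u x1 = B x x' := by
          rw [X.e, X.e']
          simp only [map_add, map_smul, LinearMap.add_apply, LinearMap.smul_apply, smul_eq_mul, o0, o1, o2, s1, s2,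
            s3, h1, h2, hb]
          unfold bf
          rw [hud, hud']
          ring
        rw [e]
        exact hK
      obt := by
        rw [k1]
        linarith only [hC] }
  have hh : d1 + (2 * b) • d2 ∈ Ψ := hT'.hc
  have fhh : φ (d1 + (2 * b) • d2) = φ d1 + 2 * b * φ d2 := by
    rw [map_add, map_smul, smul_eq_mul]
  have rhh : ρ (d1 + (2 * b) • d2) = ρ d1 + 2 * b * ρ d2 := by
    rw [map_add, map_smul, smul_eq_mul]
  have Sh : Str (-B t (d1 + (2 * b) • d2)) (φ (d1 + (2 * b) • d2)) (ρ (d1 + (2 * b) • d2)) := by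
    have e1 := X.strp (α := 0) (β := 1) (γ := 2 * b) (by
      have e : (0 : ℝ) • t + (1 : ℝ) • d1 + (2 * b) • d2 = d1 + (2 * b) • d2 := by module
      rw [e]
      exact hh) (by linarith only [hb0])
    rw [h1, h2] at e1
    rw [c2, fhh, rhh]
    have e2 : -0 * 1 + - -(1 / 2) * (2 * b) - 0 = b := by ring
    have e3 : 0 + 1 * φ d1 + 2 * b * φ d2 = φ d1 + 2 * b * φ d2 := by ring
    have e4 : 0 + 1 * ρ d1 + 2 * b * ρ d2 = ρ d1 + 2 * b * ρ d2 := by ring
    rw [e2, e3, e4] at e1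
    exact e1
  have ma : (0 : ℝ) • t + (2 * b) • d1 + (4 * b ^ 2 - 1) • d2 ∈ Ψ := by
    have e1 := hT.refl _ hh _ hT.hc
    have e2 := hT.refl _ e1 _ e1
    have e3 : rf B (d1 + (2 * b) • d2) d2 = (-(2 * b)) • d1 + (-(4 * b ^ 2 - 1)) • d2 := by
      unfold _root_.DY.rf
      rw [map_add, map_smul, LinearMap.add_apply, LinearMap.smul_apply, smul_eq_mul, hb, o2]
      module
    have e4 : rf B (rf B (d1 + (2 * b) • d2) d2) (rf B (d1 + (2 * b) • d2) d2) =
        (0 : ℝ) • t + (2 * b) • d1 + (4 * b ^ 2 - 1) • d2 := by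
      have e5 : ∀ w ∈ Ψ, rf B w w = -w := by
        intro w hw
        unfold _root_.DY.rf
        rw [hT.one w hw]
        module
      rw [e5 _ e1, e3]
      module
    rw [← e4]
    exact e2
  have nf : ∀ α β : ℝ, α • t + β • (d1 + (2 * b) • d2) ∈ Ψ → α + β * φ (d1 + (2 * b) • d2) ≠ 0 := by
    intro α β hm h0
    have hφ : φ (α • t + β • (d1 + (2 * b) • d2)) = 0 := by
      rw [map_add, map_smul, map_smul, X.ft]
      simp only [smul_eq_mul]
      linarith only [h0]
    obtain ⟨p, q, h0'⟩ := X.sp _ hm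
    have h : α • t + β • (d1 + (2 * b) • d2) = p • x + q • x' := by
      rw [hφ] at h0'
      rw [h0']
      module
    have h2 : α • t + (0 : ℝ) • (-(t + d2)) + β • (d1 + (2 * b) • d2) =
        (p * (g + u) + q * (g' + u')) • t + (p * u + q * u') • (-(t + d2)) + (p * x1 + q * x1') •
          (d1 + (2 * b) • d2) := by
      have e0 : α • t + (0 : ℝ) • (-(t + d2)) + β • (d1 + (2 * b) • d2) = α • t + β • (d1 + (2 * b) • d2) := by
        module
      rw [e0, h, ex, ex']
      module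
    obtain ⟨-, h3, -⟩ := hT'.coordW h2
    rcases X.cxx _ hm p q h with (⟨k1, k2⟩ | ⟨k1, k2⟩ | ⟨k1, k2⟩) | (⟨k1, k2⟩ | ⟨k1, k2⟩ | ⟨k1, k2⟩)
    · rw [k1, k2] at h3
      linarith only [hu1', h3]
    · rw [k1, k2] at h3
      linarith only [hu1, h3]
    · have m1 : 0 < p * u := mul_pos (lt_of_lt_of_le one_pos k1) hu
      have m2 : 0 < q * u' := mul_pos (lt_of_lt_of_le one_pos k2) hu'
      exact absurd h3 (add_pos m1 m2).ne
    · have k3 : p = 0 := by linarith only [k1]
      have k4 : q = -1 := by linarith only [k2]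
      rw [k3, k4] at h3
      linarith only [hu1', h3]
    · have k3 : p = -1 := by linarith only [k1]
      have k4 : q = 0 := by linarith only [k2]
      rw [k3, k4] at h3
      linarith only [hu1, h3]
    · have m1 : 0 < -p * u := mul_pos (lt_of_lt_of_le one_pos k1) hu
      have m2 : 0 < -q * u' := mul_pos (lt_of_lt_of_le one_pos k2) hu'
      have m3 := add_pos m1 m2
      have m4 : -p * u + -q * u' = -(p * u + q * u') := by ring
      rw [m4, ← h3, neg_zero] at m3
      exact lt_irrefl _ m3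
  have T2 : Two (1 / 2) (-B t (d1 + (2 * b) • d2)) 0
      (fun g x1 x2 => g • t + x1 • (-(t + d2)) + x2 • (d1 + (2 * b) • d2) ∈ Ψ)
      (-φ (d1 + (2 * b) • d2)) (-1 - φ d2) (g' + u') u' x1' (g + u) u x1 := by
    rw [c2]
    exact T
  obtain ⟨k, τ, I⟩ := ix_gen hT'.cp' X.ft (by rw [fhh]; exact fh) nf T2 Sh (by linarith only [f2]) (by linarith only [X.p1])
  rw [c2] at I
  obtain ⟨e, he, he0, he1⟩ := kinf_ex (c := (4 * b ^ 2 - 1) / 2) (by linarith only [h3])
  have Sa := X.strp ma (by linarith only [h3])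
  rw [h1, h2] at Sa
  have hlow := ult_low89 Sa (by linarith only [h3]) (e := e) (by linarith only [h3, he1]) (by linarith only [he])
  refine famB (f := -1 - φ d2) (r1 := -1 - ρ d2) (r := ρ (d1 + (2 * b) • d2)) (e := e) T I (by linarith only [h3]) ?_ ?_ ?_ ?_ ?_
    (by linarith only [he]) he0 he1 ?_
  · have e1 := X.sum
    have e2 := X.rx0'
    have e3 := X.rx
    rw [rhh]
    have e4 : g + u + u * (-1 - ρ d2) + x1 * (ρ d1 + 2 * b * ρ d2) = ρ x := by
      rw [e3, hud]
      ring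
    rw [e4]
    linarith only [e1, e2]
  · have e2 := X.rx0'
    have e3 := X.rx'
    rw [rhh]
    have e4 : g' + u' + u' * (-1 - ρ d2) + x1' * (ρ d1 + 2 * b * ρ d2) = ρ x' := by
      rw [e3, hud']
      ring
    rw [e4]
    exact e2
  · rw [fhh]
    linarith only [fa]
  · linarith only [hv, k1]
  · rw [k1]
    linarith only [hA]
  · rw [rhh]
    linarith only [hlow]

end Pool.Agent.Helper97.DY
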