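import Pool.Agent.Helper97.DY.N2
import Pool.Agent.Helper97.DY.N5
import Pool.Agent.Helper32.DY.Gap1

/-!
# GAP1, `h ≠ d2` (MP_d13a5e_al)
-/

set_option autoImplicit false

namespace Pool.Agent.Helper97.DY

open Set
open _root_.DY (Xs XA OFA adj89 G1M G1n gap1_A_of)

variable {E : Type*} [AddCommGroup E] [Module ℝ E]

/-- **GAP1, `h ≠ d2`**: only the case `b1 = 0`, `h = d2` (for the chamber data without the strip of `d1`) is used -/
theorem g1n_of (Ψ : Set E) (B : E →ₗ[ℝ] E →ₗ[ℝ] ℝ) (H : G1M Ψ B) : G1n Ψ B := by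
  intro ρ φ t d1 d2 x x' g x1 x2 g' x1' x2' q p r w X O ⟨hb, hc, hr1⟩ hu hu' hv hv'
  obtain ⟨hw, hr⟩ := adj89 (b := -B d1 d2) (q := q) (p := p) (r := r) (w := w)
    (by linear_combination O.ra.nrm) O.det (by linear_combination O.adj)
  have fa := O.fa
  have fh := O.fh
  rcases excl X O hb hc hr1 hu hu' hv hv' with ⟨h1, h2, h3⟩ | ⟨h1, h2, h3, h4, h5, h6⟩ |
    ⟨h1, h2, h3, h4, h5, h6⟩
  · subst h2 h3
    exact gap1_A_of H X O h1 hb hc hu hu' hv hv'
  · obtain ⟨b, hbd⟩ : ∃ b, b = -B d1 d2 := ⟨_, rfl⟩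
    rw [← hbd] at h4 h5 h6 hb
    rw [h3, h4] at fh hu hu'
    rw [← hw, h4, h5] at fa hv hv'
    exact famB_XA (b := b) X.xa h1 h2 (by linarith) (by linarith) h6 (by linarith) (by linarith) (by linarith)
      (by linarith) (by linarith) (by linarith)
  · obtain ⟨b, hbd⟩ : ∃ b, b = -B d1 d2 := ⟨_, rfl⟩
    rw [← hbd] at h3 h4 h5 h6 hb
    rw [h3, h4] at fh hu hu'
    rw [← hw, h4, h5] at fa hv hv'
    have hT := X.L.tri
    have f2 := X.h2
    have p1 := X.p1
    have p1' := X.p1'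
    have hb0 : 0 < b := by linarith
    have hfh : φ d1 + 2 * b * φ d2 < 0 := by
      have h : 2 * b * (φ d1 + 2 * b * φ d2) < 2 * b * 0 := by linarith
      exact lt_of_mul_lt_mul_left h (by linarith)
    have hu0 : 0 < 2 * b * x1 - x2 := by
      have h : 2 * b * 0 < 2 * b * (2 * b * x1 - x2) := by linarith
      exact lt_of_mul_lt_mul_left h (by linarith)
    have hu0' : 0 < 2 * b * x1' - x2' := by
      have h : 2 * b * 0 < 2 * b * (2 * b * x1' - x2') := by linarith
      exact lt_of_mul_lt_mul_left h (by linarith)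
    have M := X.mir89 h1 (y := 2 * b) (by rw [hbd]) hfh hu0 hu0'
    have b0 : B d1 d2 = -b := by linarith
    refine famB_XA (b := b) M ?_ ?_ ?_ hb0 h6 ?_ ?_ (by linarith) (by linarith) (by linarith) (by linarith)
    · rw [map_neg, h1, neg_zero]
    · rw [map_add, map_smul, smul_eq_mul, h1, h2, mul_zero, add_zero]
    · simp only [map_add, map_smul, map_neg, LinearMap.neg_apply, smul_eq_mul, hT.one d2 hT.hc,
        hT.symm d2 d1, b0]
      ring
    · rw [map_neg, map_add, map_smul, smul_eq_mul]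
      linarith
    · rw [map_neg, map_add, map_smul, smul_eq_mul]
      linarith

end Pool.Agent.Helper97.DY
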