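import Pool.Agent.Helper97.DY.M3

/-!
# GAP1, `h = d2`, `bO = 1/2`, `b1 ≥ 1/2`, index at least four: the signs (MP_d13a5e_al)
-/

set_option autoImplicit false

namespace Pool.Agent.Helper97.DY

open _root_.DY (Z1 sq Good Beyond sq_cassini sq_diff_le sq_incr)
open _root_.DY.St29 (ev)
open Pool.Agent.Helper32.DY (fw fe fm Two)

variable {b1 b2 bO : ℝ} {R : ℝ → ℝ → ℝ → Prop}
variable {κ f g x1 x2 g' v y2 τ r1 r2 s : ℝ}

theorem Idx.nn {k : ℕ} (I : Idx b2 κ τ r2 k) {i : ℕ} (hi : i ≤ k + 2) : 0 ≤ sq b2 i := by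
  rcases Nat.eq_zero_or_pos i with h | h
  · subst h
    exact le_rfl
  · obtain ⟨n, rfl⟩ : ∃ n, i = n + 1 := ⟨i - 1, by omega⟩
    exact (I.hs n (by omega)).le

theorem Idx.pp {k : ℕ} (I : Idx b2 κ τ r2 k) {i : ℕ} (h0 : 1 ≤ i) (hi : i ≤ k + 2) : 0 < sq b2 i := by
  obtain ⟨n, rfl⟩ : ∃ n, i = n + 1 := ⟨i - 1, by omega⟩
  exact I.hs n (by omega)

/-- all indices `j ≥ 4`, if `ρ(e_3) > -1/(2 s)` -/
theorem m3_A {k : ℕ} (T : Two b1 b2 (1 / 2) R κ f g x1 x2 g' v y2) (hb : 1 / 2 ≤ b1) (hs : 2 * b2 = s)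
    (I : Idx b2 κ τ r2 (k + 1)) (hX : g' + v * r1 + y2 * r2 ≤ 1) (hX' : 0 ≤ g + x1 * r1 + x2 * r2)
    (he : -(1 / (2 * s)) < r1 + (1 + 2 * b1 * s) * r2 + 2 * b1) : False := by
  have h2 : 0 < sq b2 2 := I.pp (by omega) (by omega)
  have e2 : sq b2 2 = s := by rw [← hs]; show 2 * b2 * 1 - 0 = _; ring
  have hs0 : 0 < s := by rw [← e2]; exact h2
  have hke : 1 / (2 * s) * s = 1 / 2 := by field_simp
  have hke0 : 0 < 1 / (2 * s) := by positivity
  refine I.corner T hX hX' he (delta3 T hb hs I) ?_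
  set ke := 1 / (2 * s) with hked
  rcases Nat.even_or_odd' k with ⟨l, hl | hl⟩
  · subst hl
    have h3 := G_even (b1 := b1) (ke := ke) hs (I.pp (i := 2 * l + 3) (by omega) (by omega)) I.hd
    have h4 : 0 < sq b2 (l + 2) := I.pp (by omega) (by omega)
    have h5 : 0 ≤ sq b2 l := I.nn (by omega)
    have h6 : sq b2 (l + 2) = s * sq b2 (l + 1) - sq b2 l := by rw [← hs]; rfl
    have h7 : sq b2 (l + 1) / 2 + 2 * b1 * sq b2 l - ke * sq b2 (l + 2) = (2 * b1 + ke) * sq b2 l := by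
      rw [h6]
      linear_combination (-sq b2 (l + 1)) * hke
    rw [h7] at h3
    have h8 : 0 ≤ (2 * b1 + ke) * sq b2 l := mul_nonneg (by linarith) h5
    rw [← h3] at h8
    exact nonneg_of_mul_nonneg_left h8 h4
  · subst hl
    have h3 := G_odd (b1 := b1) (ke := ke) (n := l) hs (I.pp (i := 2 * l + 4) (by omega) (by omega)) I.hd
    have h4 : 0 < sq b2 (l + 3) := I.pp (by omega) (by omega)
    have h5 : 0 < sq b2 (l + 2) := I.pp (by omega) (by omega)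
    have h6 : 0 < sq b2 (l + 1) := I.pp (by omega) (by omega)
    have h7 : 0 ≤ sq b2 l := I.nn (by omega)
    have h8 : sq b2 (l + 3) = s * sq b2 (l + 2) - sq b2 (l + 1) := by rw [← hs]; rfl
    have h9 : sq b2 (l + 2) = s * sq b2 (l + 1) - sq b2 l := by rw [← hs]; rfl
    have h10 : sq b2 (l + 1) + b1 * (sq b2 (l + 2) + sq b2 (l + 1) + 2 * sq b2 l) -
        ke * (sq b2 (l + 3) + sq b2 (l + 2)) =
        sq b2 (l + 1) + b1 * (sq b2 (l + 2) + sq b2 (l + 1) + 2 * sq b2 l) - sq b2 (l + 2) / 2 +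
          ke * sq b2 (l + 1) - sq b2 (l + 1) / 2 + ke * sq b2 l := by
      rw [h8]
      nth_rewrite 3 [h9]
      linear_combination (-sq b2 (l + 2) - sq b2 (l + 1)) * hke
    have h11 : (1 / 2) * (sq b2 (l + 2) + sq b2 (l + 1) + 2 * sq b2 l) ≤
        b1 * (sq b2 (l + 2) + sq b2 (l + 1) + 2 * sq b2 l) := mul_le_mul_of_nonneg_right hb (by linarith)
    have h12 := mul_pos hke0 h6
    have h13 := mul_nonneg hke0.le h7
    have h14 : 0 ≤ sq b2 (l + 1) + b1 * (sq b2 (l + 2) + sq b2 (l + 1) + 2 * sq b2 l) -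
        ke * (sq b2 (l + 3) + sq b2 (l + 2)) := by
      rw [h10]
      linarith
    rw [← h3] at h14
    exact nonneg_of_mul_nonneg_left h14 (by linarith)

/-- `j = 5` or `j = 6`, `s² ≤ 3`, if `ρ(e_3) > -1/s` -/
theorem m3_B {k : ℕ} (hk : k = 1 ∨ k = 2) (T : Two b1 b2 (1 / 2) R κ f g x1 x2 g' v y2) (hb : 1 / 2 ≤ b1)
    (hs : 2 * b2 = s) (hs3 : s ^ 2 ≤ 3)
    (I : Idx b2 κ τ r2 (k + 1)) (hX : g' + v * r1 + y2 * r2 ≤ 1) (hX' : 0 ≤ g + x1 * r1 + x2 * r2)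
    (he : -(1 / s) < r1 + (1 + 2 * b1 * s) * r2 + 2 * b1) : False := by
  have h2 : 0 < sq b2 2 := I.pp (by omega) (by omega)
  have e2 : sq b2 2 = s := by rw [← hs]; show 2 * b2 * 1 - 0 = _; ring
  have e3 : sq b2 3 = s ^ 2 - 1 := by
    rw [← hs]; show 2 * b2 * (2 * b2 * 1 - 0) - 1 = _; ring
  have hs0 : 0 < s := by rw [← e2]; exact h2
  have hke : 1 / s * s = 1 := by field_simp
  have hke0 : 0 < 1 / s := by positivity
  have hke1 : 1 / 2 ≤ 1 / s := by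
    apply one_div_le_one_div_of_le hs0
    nlinarith
  refine I.corner T hX hX' he (delta3 T hb hs I) ?_
  set ke := 1 / s with hked
  rcases hk with rfl | rfl
  · -- `j = 5`
    have h3 := G_odd (b1 := b1) (ke := ke) (n := 0) hs (I.pp (i := 4) (by omega) (by omega)) I.hd
    have h4 : 0 < sq b2 3 := I.pp (by omega) (by omega)
    have e1 : sq b2 (0 + 1) = 1 := rfl
    have e0 : sq b2 0 = 0 := rfl
    have e2' : sq b2 (0 + 2) = s := e2
    have e3' : sq b2 (0 + 3) = s ^ 2 - 1 := e3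
    rw [e1, e0, e2', e3'] at h3
    rw [e3] at h4
    have h5 : 1 + b1 * (s + 1 + 2 * 0) - ke * (s ^ 2 - 1 + s) = b1 * (s + 1) - s + ke := by
      linear_combination (-s - 1) * hke
    rw [h5] at h3
    have h6 : (1 / 2) * (s + 1) ≤ b1 * (s + 1) := mul_le_mul_of_nonneg_right hb (by linarith)
    have h7 : 0 ≤ b1 * (s + 1) - s + ke := by nlinarith
    rw [← h3] at h7
    exact nonneg_of_mul_nonneg_left h7 (by linarith)
  · -- `j = 6`
    have h3 := G_even (b1 := b1) (ke := ke) (l := 1) hs (I.pp (i := 5) (by omega) (by omega)) I.hd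
    have h4 : 0 < sq b2 3 := I.pp (by omega) (by omega)
    have e1 : sq b2 1 = 1 := rfl
    have e2' : sq b2 (1 + 1) = s := e2
    have e3' : sq b2 (1 + 2) = s ^ 2 - 1 := e3
    rw [e1, e2', e3'] at h3
    rw [e3] at h4
    have h5 : s / 2 + 2 * b1 * 1 - ke * (s ^ 2 - 1) = 2 * b1 - s / 2 + ke := by
      linear_combination (-s) * hke
    rw [h5] at h3
    have h7 : 0 ≤ 2 * b1 - s / 2 + ke := by nlinarith
    rw [← h3] at h7
    exact nonneg_of_mul_nonneg_left h7 h4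

end Pool.Agent.Helper97.DY
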