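import Pool.Agent.Helper97.DY.Gen

/-!
# The coefficient of the corner inequality with `e_3`, `bO = 1/2` (MP_d13a5e_al)
-/

set_option autoImplicit false

namespace Pool.Agent.Helper97.DY

open _root_.DY (Z1 sq Good Beyond sq_cassini sq_diff_le)
open _root_.DY.St29 (ev even_ix odd_ix)
open Pool.Agent.Helper32.DY (fw)

variable {b1 b2 τ s ke : ℝ}

theorem fw_even (b1 bO : ℝ) (n : ℕ) : fw b1 bO (2 * n) = 2 * b1 := by
  unfold fw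
  rw [if_pos (by omega)]

theorem fw_odd (b1 bO : ℝ) (n : ℕ) : fw b1 bO (2 * n + 1) = 2 * bO := by
  unfold fw
  rw [if_neg (by omega)]

/-- even index `j = 2 l + 4` -/
theorem G_even (hs : 2 * b2 = s) {l : ℕ} (hp : 0 < sq b2 (2 * l + 3))
    (hd : sq b2 (2 * l + 2) = τ * (sq b2 (2 * l + 3) + 1)) :
    (fw b1 (1 / 2) (2 * l + 3) / 2 * τ + ev b1 b2 (1 / 2) τ ((1 + 2 * b1 * s) * τ - 2 * b1 - ke) (2 * l + 2)) *
      sq b2 (l + 2) = sq b2 (l + 1) / 2 + 2 * b1 * sq b2 l - ke * sq b2 (l + 2) := by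
  obtain ⟨h1, h2⟩ := even_ix (b1 := b1) (bO := 1 / 2) hp hd ((1 + 2 * b1 * s) * τ - 2 * b1 - ke)
  have h3 : fw b1 (1 / 2) (2 * l + 3) = 2 * (1 / 2) := fw_odd b1 (1 / 2) (l + 1)
  have h4 : sq b2 (l + 2) = s * sq b2 (l + 1) - sq b2 l := by rw [← hs]; rfl
  rw [h2, h3]
  linear_combination (1 / 2 + 2 * b1 * s) * h1 - 2 * b1 * h4

/-- odd index `j = 2 n + 5` -/
theorem G_odd (hs : 2 * b2 = s) {n : ℕ} (hp : 0 < sq b2 (2 * n + 4))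
    (hd : sq b2 (2 * n + 3) = τ * (sq b2 (2 * n + 4) + 1)) :
    (fw b1 (1 / 2) (2 * n + 4) / 2 * τ + ev b1 b2 (1 / 2) τ ((1 + 2 * b1 * s) * τ - 2 * b1 - ke) (2 * n + 3)) *
      (sq b2 (n + 3) + sq b2 (n + 2)) = sq b2 (n + 1) + b1 * (sq b2 (n + 2) + sq b2 (n + 1) + 2 * sq b2 n) -
        ke * (sq b2 (n + 3) + sq b2 (n + 2)) := by
  obtain ⟨h1, h2⟩ := odd_ix (b1 := b1) (bO := 1 / 2) (l := n + 1) (τ := τ) (b2 := b2) hp hd
    ((1 + 2 * b1 * s) * τ - 2 * b1 - ke)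
  have e1 : n + 1 + 2 = n + 3 := rfl
  have e2 : n + 1 + 1 = n + 2 := rfl
  have e3 : 2 * (n + 1) + 1 = 2 * n + 3 := rfl
  rw [e1, e2] at h1 h2
  rw [e3] at h2
  have h3 : fw b1 (1 / 2) (2 * n + 4) = 2 * b1 := fw_even b1 (1 / 2) (n + 2)
  have h4 : sq b2 (n + 3) = s * sq b2 (n + 2) - sq b2 (n + 1) := by rw [← hs]; rfl
  have h5 : sq b2 (n + 2) = s * sq b2 (n + 1) - sq b2 n := by rw [← hs]; rfl
  rw [h3]
  linear_combination (b1 + 1 + 2 * b1 * s) * h1 + h2 - 2 * b1 * h4 - 2 * b1 * h5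

end Pool.Agent.Helper97.DY
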