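import Pool.Agent.Helper29.DY.Chm
import Pool.Agent.Helper9.DY.NG

/-!
# The corner inequality from (*) and one ultraparallel root (MP_d13a5e_al)

`Two b1 b2 bO R κ f g x1 x2 g' v y2`: `(g, x1, x2)` is the flatter root `x_L`, `(g', v, y2)` the steeper root `x_R`.
`r1, r2` are the values of the centre at the two walls.
-/

set_option autoImplicit false

namespace Pool.Agent.Helper97.DY

open _root_.DY (Z1 sq Good Beyond sq_cassini sq_diff_le)
open _root_.DY.St29 (ev Ta two_star two_B Lval rt_sq_one rt_sq_next)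
open Pool.Agent.Helper62.DY (RT)
open Pool.Agent.Helper32.DY (fw fe fe_z fm fm_rec Two z1_nonneg z1_one)

variable {b1 b2 bO : ℝ} {R : ℝ → ℝ → ℝ → Prop}
variable {κ f g x1 x2 g' v y2 τ r1 r2 : ℝ}

/-- `K` fails -/
theorem kf (T : Two b1 b2 bO R κ f g x1 x2 g' v y2) (hX : g' + v * r1 + y2 * r2 ≤ 1)
    (hX' : 0 ≤ g + x1 * r1 + x2 * r2) (hr : -τ ≤ r2) : (κ - τ) * (y2 * x1 - x2 * v) ≤ x1 := by
  have hD : 0 < y2 * x1 - x2 * v := by linarith [T.st]
  have e1 : (κ + r2) * (y2 * x1 - x2 * v) = x1 * (g' + v * r1 + y2 * r2) -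
      v * (g + x1 * r1 + x2 * r2) := by
    linear_combination v * T.fx - x1 * T.fy
  have e2 : x1 * (g' + v * r1 + y2 * r2) ≤ x1 * 1 := mul_le_mul_of_nonneg_left hX (by linarith [T.p1])
  have e3 : 0 ≤ v * (g + x1 * r1 + x2 * r2) := mul_nonneg (by linarith [T.v1]) hX'
  have e4 : (κ - τ) * (y2 * x1 - x2 * v) ≤ (κ + r2) * (y2 * x1 - x2 * v) :=
    mul_le_mul_of_nonneg_right (by linarith) hD.le
  linarith

/-- the corner inequality -/
theorem gen {ke μ ν G : ℝ} {k : ℕ} (hS : sq b2 (k + 3) * τ = sq b2 (k + 2) - 1)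
    (hd : sq b2 (k + 1) = τ * (sq b2 (k + 2) + 1))
    (hstar : 1 ≤ (1 - b2 * τ) * fe b1 b2 bO v y2 g' (k + 2) + τ * (fe b1 b2 bO v y2 g' (k + 1) -
      b2 * fe b1 b2 bO v y2 g' (k + 2) - fw b1 bO (k + 2) / 2 * v))
    (hv : 0 ≤ v) (hr : -τ ≤ r2) (he : -ke ≤ r1 + μ * r2 + ν) (hμ : 0 ≤ y2 - μ * v)
    (hG : G = fw b1 bO (k + 2) / 2 * τ + ev b1 b2 bO τ (μ * τ - ν - ke) (k + 1)) :
    1 + (r2 + τ) * (y2 - μ * v) + G * v ≤ g' + v * r1 + y2 * r2 := by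
  have h1 := Lval (b1 := b1) (bO := bO) hS hd (μ * τ - ν - ke) v y2 g'
  rw [← hG] at h1
  have h2 : v * (-ke) ≤ v * (r1 + μ * r2 + ν) := mul_le_mul_of_nonneg_left he hv
  nlinarith

/-- index `≥ 3` at `V_2`: the data `Ta` -/
theorem ta_of (h : RT b1 b2 bO R) {k : ℕ} (hs : ∀ i ≤ k + 2, 0 < sq b2 (i + 1)) (hτ : τ = (sq b2 (k + 2) - 1) / sq b2 (k + 3)) :
    Ta b2 τ (sq b2 (k + 2)) (sq b2 (k + 3)) (sq b2 (k + 1)) := by
  have h1 : 1 ≤ sq b2 (k + 1) := rt_sq_one h (hs k (by omega))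
  have h2 : 1 ≤ sq b2 (k + 2) := rt_sq_one h (hs (k + 1) (by omega))
  have h3 : 1 ≤ sq b2 (k + 3) := rt_sq_one h (hs (k + 2) (by omega))
  have hm : sq b2 (k + 3) + sq b2 (k + 1) = 2 * b2 * sq b2 (k + 2) := by
    show 2 * b2 * sq b2 (k + 2) - sq b2 (k + 1) + sq b2 (k + 1) = _
    ring
  have hc : sq b2 (k + 2) ^ 2 - sq b2 (k + 1) * sq b2 (k + 3) = 1 := sq_cassini b2 (k + 1)
  have s2 : 2 ≤ sq b2 (k + 2) ^ 2 := by nlinarith
  have s1 : 1 < sq b2 (k + 2) := by nlinarith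
  have hS : sq b2 (k + 3) * τ = sq b2 (k + 2) - 1 := by
    rw [hτ]
    field_simp
  have t0 : 0 < τ := by
    rw [hτ]
    exact div_pos (by linarith) (by linarith)
  have hd : sq b2 (k + 1) = τ * (sq b2 (k + 2) + 1) := by
    have e1 : sq b2 (k + 3) * (sq b2 (k + 1) - τ * (sq b2 (k + 2) + 1)) = 0 := by
      linear_combination (-1 : ℝ) * hc - (sq b2 (k + 2) + 1) * hS
    rcases mul_eq_zero.1 e1 with e2 | e2
    · linarith
    · linarith
  have b2' : 1 ≤ 2 * b2 ^ 2 := by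
    have e1 : 1 ≤ sq b2 3 := rt_sq_one h (hs 2 (by omega))
    have e2 : sq b2 3 = 4 * b2 ^ 2 - 1 := by
      show 2 * b2 * (2 * b2 * 1 - 0) - 1 = _
      ring
    rw [e2] at e1
    linarith
  have b0' : 0 < b2 := by
    have e1 : 0 < sq b2 2 := hs 1 (by omega)
    have e2 : sq b2 2 = 2 * b2 := by
      show 2 * b2 * 1 - 0 = _
      ring
    rw [e2] at e1
    linarith
  refine ⟨hS, hd, hm, s2, by linarith, t0, ?_, b2', b0'⟩
  rcases lt_or_ge b2 1 with hb | hb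
  · have e1 : |sq b2 (k + 1 + 2) - sq b2 (k + 1)| ≤ 2 := sq_diff_le (by nlinarith) _
    have e2 := (abs_le.1 e1).1
    have e3 : sq b2 (k + 1 + 2) = sq b2 (k + 3) := rfl
    rw [e3] at e2
    have e4 : b2 * sq b2 (k + 2) < sq b2 (k + 2) := by nlinarith
    have e5 : sq b2 (k + 1) < sq b2 (k + 2) + 1 := by linarith
    by_contra hcon
    have hcon := not_lt.1 hcon
    nlinarith
  · have e1 := (_root_.DY.sq_incr hb (k + 2)).2
    have e2 : sq b2 (k + 2 + 1) = sq b2 (k + 3) := rfl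
    rw [e2] at e1
    by_contra hcon
    have hcon := not_lt.1 hcon
    nlinarith

end Pool.Agent.Helper97.DY
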