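import Mathlib

/-!
# Real inequalities for GAP1, `bO = 1/2`, index at least four (MP_d13a5e_al)
-/

set_option autoImplicit false

namespace Pool.Agent.Helper97.DY

/-- the form increases: `N(g, v, Y) ≥ 1` for `Y ≥ y`, `y` the larger root -/
theorem n_mono {b s g v y Y : ℝ} (hn : g ^ 2 + v ^ 2 + y ^ 2 - 2 * b * g * v - s * g * y - v * y = 1)
    (d0 : 0 < 2 * y - s * g - v) (hY : y ≤ Y) :
    1 ≤ g ^ 2 + v ^ 2 + Y ^ 2 - 2 * b * g * v - s * g * Y - v * Y := by
  have h1 : 0 ≤ (Y - y) * (Y + y - s * g - v) := mul_nonneg (by linarith) (by linarith)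
  nlinarith

theorem d3real {b s g v y w2 w3 : ℝ} (hb : 1 / 2 ≤ b) (hs : 0 < s) (hv : 0 < v) (hg : 0 < g)
    (hn : g ^ 2 + v ^ 2 + y ^ 2 - 2 * b * g * v - s * g * y - v * y = 1)
    (e2 : w2 = s * g + v - y) (e3 : w3 = s * w2 + 2 * b * v - g)
    (d0 : 0 < 2 * y - s * g - v) (d1 : 0 < 2 * g - s * w2 - 2 * b * v) (d2 : 0 < 2 * w2 - s * w3 - v)
    (h3 : 0 ≤ w3) (hcase : s ^ 2 = 2 ∨ s ^ 2 = s + 1 ∨ 3 ≤ s ^ 2) : (1 + 2 * b * s) * v ≤ y := by
  by_contra hcon
  have hcon := not_le.1 hcon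
  have hN := n_mono hn d0 hcon.le
  have hgv : 0 < g * v := mul_pos hg hv
  -- the third difference
  have k3 : (s ^ 3 - 3 * s) * g + (s ^ 2 + 2 * b * s - 1) * v < (s ^ 2 - 2) * y := by
    rw [e3, e2] at d2
    nlinarith
  have k0 : s * g < (1 + 4 * b * s) * v := by nlinarith
  rcases hcase with h | h | h
  · -- `s = √2`
    have k3' : (1 + 2 * b * s) * v < s * g := by
      have h4 : s ^ 3 = 2 * s := by
        have : s ^ 3 = s * s ^ 2 := by ring
        rw [this, h]; ring
      rw [h4, h] at k3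
      nlinarith
    have hs1 : 1 < s := by nlinarith
    have k5 : 2 * (g ^ 2 + v ^ 2 + ((1 + 2 * b * s) * v) ^ 2 - 2 * b * g * v - s * g * ((1 + 2 * b * s) * v) -
        v * ((1 + 2 * b * s) * v)) =
        (s * g) ^ 2 - (2 + 6 * b * s) * (s * g) * v + (2 + 4 * b * s + 16 * b ^ 2) * v ^ 2 := by
      linear_combination (-g ^ 2 + 2 * b * g * v + 8 * b ^ 2 * v ^ 2) * h
    have k6 : 0 < (s * g - (1 + 2 * b * s) * v) * ((1 + 4 * b * s) * v - s * g) :=
      mul_pos (by linarith) (by linarith)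
    have k7 : (s * g) ^ 2 - (2 + 6 * b * s) * (s * g) * v + (2 + 4 * b * s + 16 * b ^ 2) * v ^ 2 =
        -((s * g - (1 + 2 * b * s) * v) * ((1 + 4 * b * s) * v - s * g)) + (1 - 2 * b * s) * v ^ 2 := by
      linear_combination (-8 * b ^ 2 * v ^ 2) * h
    have k8 : (1 - 2 * b * s) * v ^ 2 ≤ 0 := by
      apply mul_nonpos_of_nonpos_of_nonneg _ (sq_nonneg v)
      nlinarith
    linarith
  · -- golden
    have hs1 : 1 < s := by nlinarith
    have h3' : s ^ 3 = 2 * s + 1 := by
      have : s ^ 3 = s * s ^ 2 := by ring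
      rw [this, h]
      linear_combination h
    rw [h3', h] at k3
    have e7 : s * (s - 1) = 1 := by linear_combination h
    -- `g > (2 b + s) v`
    have k4 : (2 * b + s) * v < g := by
      have h5 : (s - 1) * y < (s - 1) * ((1 + 2 * b * s) * v) :=
        mul_lt_mul_of_pos_left hcon (by linarith)
      have h6 : (s - 1) * ((1 + 2 * b * s) * v) = (s - 1 + 2 * b) * v := by
        linear_combination (2 * b * v) * e7
      have h7 : (2 * s + 1 - 3 * s) * g + (s + 1 + 2 * b * s - 1) * v < (s - 1 + 2 * b) * v := by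
        have : (s + 1 - 2) * y = (s - 1) * y := by ring
        rw [this] at k3
        linarith
      have h8 : (1 + 2 * b * (s - 1)) * v < (s - 1) * g := by linarith
      have h9 : (s - 1) * ((2 * b + s) * v) = (1 + 2 * b * (s - 1)) * v := by
        linear_combination v * e7
      have h10 : (s - 1) * ((2 * b + s) * v) < (s - 1) * g := by rw [h9]; exact h8
      exact lt_of_mul_lt_mul_left h10 (by linarith)
    have k6 : 0 < (g - (2 * b + s) * v) * ((1 + 4 * b * s) * v - s * g) :=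
      mul_pos (by linarith) (by linarith)
    have k7 : s * (g ^ 2 + v ^ 2 + ((1 + 2 * b * s) * v) ^ 2 - 2 * b * g * v - s * g * ((1 + 2 * b * s) * v) -
        v * ((1 + 2 * b * s) * v)) =
        -((g - (2 * b + s) * v) * ((1 + 4 * b * s) * v - s * g)) + (1 - 2 * b) * (g * v) +
          (4 * b ^ 2 - 4 * b - 2 * b * s) * v ^ 2 := by
      linear_combination (-2 * b * (s + 1) * g * v + (-2 * b + 4 * b ^ 2 * (s + 1)) * v ^ 2) * h
    have k8 : (2 * b - 1) * ((2 * b + s) * v ^ 2) ≤ (2 * b - 1) * (g * v) := by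
      apply mul_le_mul_of_nonneg_left _ (by linarith)
      nlinarith
    have k9 : (s - 2 * b - 4 * b * s) * v ^ 2 ≤ 0 := by
      apply mul_nonpos_of_nonpos_of_nonneg _ (sq_nonneg v)
      nlinarith
    have k10 := mul_le_mul_of_nonneg_left hN hs.le
    rw [k7] at k10
    linarith
  · -- `s² ≥ 3`
    have hs1 : 3 / 2 < s := by nlinarith
    have hw2 : v < 2 * w2 := by
      have := mul_nonneg hs.le h3
      linarith
    have hg1 : (4 * b + s) * v < 4 * g := by nlinarith
    have hg2 : 2 * b * v ≤ g := by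
      by_contra hc
      have hc := not_le.1 hc
      have hN2 := n_mono (Y := s * g + v / 2) hn d0 (by linarith)
      have e4 : g ^ 2 + v ^ 2 + (s * g + v / 2) ^ 2 - 2 * b * g * v - s * g * (s * g + v / 2) -
          v * (s * g + v / 2) = -(g * (2 * b * v - g)) - s / 2 * g * v + 3 / 4 * v ^ 2 := by ring
      have e5 : 0 < g * (2 * b * v - g) := mul_pos hg (by linarith)
      have e6 : v * (2 * s * g) < v * (3 * v) := by nlinarith
      have e7 : 2 * s * g < 3 * v := lt_of_mul_lt_mul_left e6 hv.le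
      have e8 : s * ((4 * b + s) * v) < s * (4 * g) := mul_lt_mul_of_pos_left hg1 hs
      have e9 : v * (s * (4 * b + s)) < v * 6 := by linarith
      have e10 : s * (4 * b + s) < 6 := lt_of_mul_lt_mul_left e9 hv.le
      nlinarith
    have h5 : (s ^ 2 - 2) * y < (s ^ 2 - 2) * ((1 + 2 * b * s) * v) :=
      mul_lt_mul_of_pos_left hcon (by linarith)
    have h6 : s * (s ^ 2 - 3) * (g - 2 * b * v) + v < 0 := by nlinarith
    have h7 : 0 ≤ s * (s ^ 2 - 3) * (g - 2 * b * v) :=
      mul_nonneg (mul_nonneg hs.le (by linarith)) (by linarith)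
    linarith

end Pool.Agent.Helper97.DY
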