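import Pool.Agent.Helper97.DY.GV
import Pool.Agent.Helper97.DY.Real1

/-!
# GAP1, `h = d2`, `bO = 1/2`, `b1 ≥ 1/2`, index at least four (MP_d13a5e_al)
-/

set_option autoImplicit false

namespace Pool.Agent.Helper97.DY

open _root_.DY (Z1 sq Good Beyond sq_cassini sq_diff_le sq_incr)
open _root_.DY.St29 (ev Ta two_star two_B Lval rt_sq_one rt_sq_next)
open Pool.Agent.Helper62.DY (RT)
open Pool.Agent.Helper32.DY (fw fe fe_z fe_n fm fm_rec Two z1_nonneg z1_one)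

variable {b1 b2 bO : ℝ} {R : ℝ → ℝ → ℝ → Prop}
variable {κ f g x1 x2 g' v y2 τ r1 r2 s ke : ℝ}

/-- the index `j = k + 3` of `F` at `V_2`, good or beyond (`sq (k+3) = 0`) -/
structure Idx (b2 κ τ r2 : ℝ) (k : ℕ) : Prop where
  hs : ∀ i ≤ k + 1, 0 < sq b2 (i + 1)
  hf : ∀ i ≤ k + 2, 0 < fm b2 κ i
  s3 : 0 ≤ sq b2 (k + 3)
  hS : sq b2 (k + 3) * τ = sq b2 (k + 2) - 1
  hd : sq b2 (k + 1) = τ * (sq b2 (k + 2) + 1)
  hr : -τ ≤ r2

theorem Idx.star {k : ℕ} (I : Idx b2 κ τ r2 k) (T : Two b1 b2 bO R κ f g x1 x2 g' v y2)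
    (hX : g' + v * r1 + y2 * r2 ≤ 1) (hX' : 0 ≤ g + x1 * r1 + x2 * r2) :
    1 ≤ (1 - b2 * τ) * fe b1 b2 bO v y2 g' (k + 2) + τ * (fe b1 b2 bO v y2 g' (k + 1) -
      b2 * fe b1 b2 bO v y2 g' (k + 2) - fw b1 bO (k + 2) / 2 * v) := by
  have hK := kf T hX hX' I.hr
  rcases I.s3.lt_or_eq with h | h
  · have hτ : τ = (sq b2 (k + 2) - 1) / sq b2 (k + 3) := by
      rw [← I.hS]
      field_simp
    have hTa : Ta b2 τ (sq b2 (k + 2)) (sq b2 (k + 3)) (sq b2 (k + 1)) := by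
      refine ta_of T.h (fun i hi => ?_) hτ
      rcases Nat.lt_or_ge i (k + 2) with h1 | h1
      · exact I.hs i (by omega)
      · have : i = k + 2 := by omega
        subst this
        exact h
    exact two_star T hTa (I.hf _ (by omega)) (I.hf _ le_rfl) hK
  · have h1 : sq b2 (k + 2) = 1 := by
      have := I.hS
      rw [← h] at this
      linarith
    have h2 : sq b2 (k + 1) = 2 * b2 := by
      have h3 : sq b2 (k + 3) = 2 * b2 * sq b2 (k + 2) - sq b2 (k + 1) := rfl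
      rw [h1, ← h] at h3
      linarith
    have h3 : τ = b2 := by
      have := I.hd
      rw [h1, h2] at this
      linarith
    have hb0 : 0 < b2 := by
      have := I.hs k (by omega)
      rw [h2] at this
      linarith
    have hb1 : b2 < 1 := by
      by_contra hcon
      have := sq_incr (not_lt.1 hcon) (k + 2)
      have h4 : sq b2 (k + 2 + 1) = sq b2 (k + 3) := rfl
      rw [h4, h1, ← h] at this
      linarith [this.2]
    have hE := T.e_pos (I.hf (k + 2) le_rfl)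
    have hB := two_B T (I.hf (k + 2) le_rfl) (I.hs (k + 1) (by omega)) I.hd hK
    have hf := I.hf (k + 2) le_rfl
    rw [h3] at hB ⊢
    have e1 : (1 - b2 * b2) * 1 ≤ (1 - b2 * b2) * fe b1 b2 bO v y2 g' (k + 2) :=
      mul_le_mul_of_nonneg_left hE (by nlinarith)
    have e2 : b2 * b2 ≤ b2 * (fe b1 b2 bO v y2 g' (k + 1) -
      b2 * fe b1 b2 bO v y2 g' (k + 2) - fw b1 bO (k + 2) / 2 * v) :=
      mul_le_mul_of_nonneg_left (by linarith) hb0.le
    linarith

/-- strict corner inequality -/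
theorem Idx.corner {k : ℕ} (I : Idx b2 κ τ r2 k) (T : Two b1 b2 bO R κ f g x1 x2 g' v y2)
    (hX : g' + v * r1 + y2 * r2 ≤ 1) (hX' : 0 ≤ g + x1 * r1 + x2 * r2) {μ ν : ℝ}
    (he : -ke < r1 + μ * r2 + ν) (hμ : 0 ≤ y2 - μ * v)
    (hG : 0 ≤ fw b1 bO (k + 2) / 2 * τ + ev b1 b2 bO τ (μ * τ - ν - ke) (k + 1)) : False := by
  have h1 := I.star T hX hX'
  obtain ⟨ke', hk1, hk2⟩ : ∃ ke', ke' < ke ∧ -ke' ≤ r1 + μ * r2 + ν := ⟨-(r1 + μ * r2 + ν), by linarith, by linarith⟩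
  have hv := T.v1
  have h2 := gen (b1 := b1) (bO := bO) (G := fw b1 bO (k + 2) / 2 * τ + ev b1 b2 bO τ (μ * τ - ν - ke) (k + 1) +
    (ke - ke')) I.hS I.hd h1 (by linarith) I.hr hk2 hμ (by
      have h3 : ∀ (n : ℕ) (a c : ℝ), ev b1 b2 bO τ (a + c) n = ev b1 b2 bO τ a n + c := by
        intro n a c
        induction n with
        | zero => rfl
        | succ n ih =>
          show ev b1 b2 bO τ (a + c) n - _ = ev b1 b2 bO τ a n - _ + c
          rw [ih]
          ring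
      have h4 : μ * τ - ν - ke' = (μ * τ - ν - ke) + (ke - ke') := by ring
      rw [h4, h3]
      ring)
  have h3 : 0 ≤ (r2 + τ) * (y2 - μ * v) := mul_nonneg (by linarith [I.hr]) hμ
  have h4 : 0 < (fw b1 bO (k + 2) / 2 * τ + ev b1 b2 bO τ (μ * τ - ν - ke) (k + 1) +
    (ke - ke')) * v := mul_pos (by linarith) (by linarith)
  linarith

/-- the three cases of `s = 2 b2` for index at least four -/
theorem s_case (h : RT b1 b2 bO R) (hs : 2 * b2 = s) (h2 : 0 < sq b2 2) (h3 : 0 < sq b2 3)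
    (h4 : 0 ≤ sq b2 4) : s ^ 2 = 2 ∨ s ^ 2 = s + 1 ∨ 3 ≤ s ^ 2 := by
  have e2 : sq b2 2 = s := by rw [← hs]; show 2 * b2 * 1 - 0 = _; ring
  have e3 : sq b2 3 = s ^ 2 - 1 := by
    rw [← hs]; show 2 * b2 * (2 * b2 * 1 - 0) - 1 = _; ring
  have e4 : sq b2 4 = s ^ 3 - 2 * s := by
    rw [← hs]; show 2 * b2 * (2 * b2 * (2 * b2 * 1 - 0) - 1) - (2 * b2 * 1 - 0) = _; ring
  have e5 : sq b2 5 = s ^ 4 - 3 * s ^ 2 + 1 := by
    rw [← hs]
    show 2 * b2 * (2 * b2 * (2 * b2 * (2 * b2 * 1 - 0) - 1) - (2 * b2 * 1 - 0)) -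
      (2 * b2 * (2 * b2 * 1 - 0) - 1) = _
    ring
  rw [e2] at h2
  rcases h4.lt_or_eq with h5 | h5
  · right
    have h6 := rt_sq_next h h5
    rw [e4] at h5
    rw [e5] at h6
    rcases h6 with h6 | h6
    · left
      have h7 : (s ^ 2 - s - 1) * (s ^ 2 + s - 1) = 0 := by linear_combination h6
      rcases mul_eq_zero.1 h7 with h8 | h8
      · linarith
      · exfalso
        have h9 : s * (s ^ 2 - 2) = s ^ 3 - 2 * s := by ring
        rw [← h9] at h5
        have := (mul_pos_iff_of_pos_left h2).1 h5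
        linarith
    · right
      have h7 : 0 ≤ s ^ 2 * (s ^ 2 - 3) := by linarith [h6, (by ring : s ^ 2 * (s ^ 2 - 3) = s ^ 4 - 3 * s ^ 2)]
      have h8 : 0 < s ^ 2 := by positivity
      have := nonneg_of_mul_nonneg_right h7 h8
      linarith
  · left
    rw [e4] at h5
    have h6 : s * (s ^ 2 - 2) = 0 := by linear_combination -h5
    rcases mul_eq_zero.1 h6 with h7 | h7
    · linarith
    · linarith

/-- the steeper root is steeper than `e_3` -/
theorem delta3 {k : ℕ} (T : Two b1 b2 (1 / 2) R κ f g x1 x2 g' v y2) (hb : 1 / 2 ≤ b1) (hs : 2 * b2 = s)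
    (I : Idx b2 κ τ r2 (k + 1)) : 0 ≤ y2 - (1 + 2 * b1 * s) * v := by
  have h1 : 0 < sq b2 1 := I.hs 0 (by omega)
  have h2 : 0 < sq b2 2 := I.hs 1 (by omega)
  have h3 : 0 < sq b2 3 := I.hs 2 (by omega)
  have h4 : 0 ≤ sq b2 4 := by
    rcases Nat.eq_zero_or_pos k with h | h
    · subst h
      exact I.s3
    · exact (I.hs 3 (by omega)).le
  have f1 := I.hf 1 (by omega)
  have f2 := I.hf 2 (by omega)
  have f3 := I.hf 3 (by omega)
  have hv := T.v1
  have e2 : sq b2 2 = s := by rw [← hs]; show 2 * b2 * 1 - 0 = _; ring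
  have hs0 : 0 < s := by rw [← e2]; exact h2
  have hδ : 0 ≤ 2 * b1 * v + 2 * b2 * y2 - 2 * g' := by linarith [T.obt]
  have hc := T.b_pos
  obtain ⟨d0, d1⟩ := T.diff 0
  obtain ⟨-, d2⟩ := T.diff 1
  set δ := 2 * b1 * v + 2 * b2 * y2 - 2 * g' with hδd
  set c := (2 * y2 - 2 * b2 * g' - 2 * (1 / 2) * v) - κ * δ with hcd
  have w2 : fe b1 b2 (1 / 2) v y2 g' 2 = s * g' + v - y2 := by
    show 2 * b2 * g' + (2 * (1 / 2)) * v - y2 = _
    rw [hs]
    ring
  have w3 : fe b1 b2 (1 / 2) v y2 g' 3 = s * (s * g' + v - y2) + 2 * b1 * v - g' := by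
    have : fe b1 b2 (1 / 2) v y2 g' 3 = 2 * b2 * fe b1 b2 (1 / 2) v y2 g' 2 + (2 * b1) * v - g' := rfl
    rw [this, w2, hs]
  have w4 : fe b1 b2 (1 / 2) v y2 g' 4 = s * (s * (s * g' + v - y2) + 2 * b1 * v - g') + v -
      (s * g' + v - y2) := by
    have : fe b1 b2 (1 / 2) v y2 g' 4 = 2 * b2 * fe b1 b2 (1 / 2) v y2 g' 3 + (2 * (1 / 2)) * v -
      fe b1 b2 (1 / 2) v y2 g' 2 := rfl
    rw [this, w3, w2, hs]
    ring
  have z3 := z1_nonneg (fe_z T.h T.hy (by linarith) 3)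
  have hg : 1 ≤ g' := T.e_pos f1
  have d0' : 0 < y2 - (s * g' + v - y2) := by
    have e1 : fe b1 b2 (1 / 2) v y2 g' 0 - fe b1 b2 (1 / 2) v y2 g' (0 + 2) = y2 - (s * g' + v - y2) := by
      rw [← w2]; rfl
    rw [e1] at d0
    rw [d0]
    have := mul_nonneg f1.le hδ
    have := mul_pos h1 hc
    linarith
  have d1' : 0 < g' - (s * (s * g' + v - y2) + 2 * b1 * v - g') := by
    have e1 : fe b1 b2 (1 / 2) v y2 g' (0 + 1) - fe b1 b2 (1 / 2) v y2 g' (0 + 3) =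
        g' - (s * (s * g' + v - y2) + 2 * b1 * v - g') := by
      rw [← w3]; rfl
    rw [e1] at d1
    rw [d1]
    have := mul_nonneg f2.le hδ
    have := mul_pos h2 hc
    linarith
  have d2' : 0 < (s * g' + v - y2) - (s * (s * (s * g' + v - y2) + 2 * b1 * v - g') + v -
      (s * g' + v - y2)) := by
    have e1 : fe b1 b2 (1 / 2) v y2 g' (1 + 1) - fe b1 b2 (1 / 2) v y2 g' (1 + 3) =
        (s * g' + v - y2) - (s * (s * (s * g' + v - y2) + 2 * b1 * v - g') + v -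
      (s * g' + v - y2)) := by
      rw [← w4, ← w2]
    rw [e1] at d2
    rw [d2]
    have := mul_nonneg f3.le hδ
    have := mul_pos h3 hc
    linarith
  have hn := T.h.n _ _ _ T.hy
  rw [hs] at hn
  rw [w3] at z3
  have := d3real (w2 := s * g' + v - y2) (w3 := s * (s * g' + v - y2) + 2 * b1 * v - g') hb hs0
    (by linarith : 0 < v) (by linarith : 0 < g') (by linarith) rfl rfl (by linarith)
    (by linarith) (by linarith) z3 (s_case T.h hs h2 h3 h4)
  linarith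

end Pool.Agent.Helper97.DY
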