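import Pool.Agent.Helper89.DY.Gap4

/-!
# GAP1: `h = d2`, or one of three exceptions: the real part (MP_d13a5e_al)

`c = -B(t,a)`, `d = -B(t,h)`, `b = B(a,h)`, `x_R = g t + u a + v h`, `κ = -φ h`, `α = φ a`.
-/

set_option autoImplicit false

namespace Pool.Agent.Helper97.DY

open _root_.DY (Z1 e0Z1)

/-- the exclusion: `c_n c_a < b ^ 2`, `c_n = 2 b d - c` -/
theorem excl_real {b c d g u v κ α : ℝ} (hb : 0 < b) (hc : 1 < c) (hu : 0 < u) (hv : 0 < v) (hκ : 0 < κ)
    (hα : 0 ≤ α) (hg : g = κ * v - α * u) (hg0 : 0 ≤ g) (hA : 0 ≤ c * g - u - b * v)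
    (hT : 0 ≤ c * u + d * v - g) (E1 : 0 < 1 - 2 * d * κ + κ ^ 2)
    (E2 : κ * (c * u + d * v - g) < v + b * u - d * g) (hex : c < b → 2 * b * c ≤ d) :
    2 * b * c * d < b ^ 2 + c ^ 2 := by
  by_contra hcon
  have hcon := not_lt.1 hcon
  have h1 : b < κ * c := by
    have h2 : b * v < c * κ * v := by
      have h3 := mul_nonneg hα hu.le
      have h4 : c * g ≤ c * (κ * v) := mul_le_mul_of_nonneg_left (by linarith only [hg, h3]) (by linarith only [hc])
      linarith only [hu, hA, h4]
    have := lt_of_mul_lt_mul_right h2 hv.le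
    linarith only [this]
  have hk1 : v + b * u - d * g ≤ c * u + d * v - g → κ < 1 := by
    intro h
    by_contra h2
    have h2 := not_lt.1 h2
    have h3 : 1 * (c * u + d * v - g) ≤ κ * (c * u + d * v - g) := mul_le_mul_of_nonneg_right h2 hT
    linarith only [E2, h, h3]
  rcases lt_or_ge c b with h2 | h2
  · have hd := hex h2
    have h3 : v + b * u - d * g ≤ c * u + d * v - g := by
      have h4 : u * (b - c) ≤ (c * g - b * v) * (b - c) := mul_le_mul_of_nonneg_right (by linarith only [hA]) (by linarith only [h2])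
      have h5 : g * (2 * b * c) ≤ g * d := mul_le_mul_of_nonneg_left hd hg0
      have h6 : v * (2 * b * c) ≤ v * d := mul_le_mul_of_nonneg_left hd hv.le
      have h7 : 0 ≤ g * (b * c + c ^ 2 - 1) := mul_nonneg hg0 (by nlinarith only [hb, hc])
      have h8 : 0 ≤ v * (b * c + b ^ 2 - 1) := mul_nonneg hv.le (by nlinarith only [hc, h2])
      linarith only [h4, h5, h6, h7, h8]
    have h4 := hk1 h3
    have h5 : κ * c < 1 * c := mul_lt_mul_of_pos_right h4 (by linarith only [hc])
    linarith only [h1, h2, h5]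
  · have hbc : 0 < 2 * b * c := by positivity
    have hd : 1 ≤ d := by
      have h3 : 2 * b * c * 1 ≤ 2 * b * c * d := by nlinarith only [hcon, sq_nonneg (b - c)]
      exact le_of_mul_le_mul_left h3 hbc
    have h3 : v + b * u - d * g ≤ c * u + d * v - g := by
      have h4 : 0 ≤ u * (c - b) := mul_nonneg hu.le (by linarith only [h2])
      have h5 : 0 ≤ g * (d - 1) := mul_nonneg hg0 (by linarith only [hd])
      have h6 : 0 ≤ v * (d - 1) := mul_nonneg hv.le (by linarith only [hd])
      linarith only [h4, h5, h6]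
    have h4 := hk1 h3
    have h5 : κ * c < 1 * c := mul_lt_mul_of_pos_right h4 (by linarith only [hc])
    have h6 : 0 < c ^ 2 * (1 - 2 * d * κ + κ ^ 2) := mul_pos (by positivity) E1
    have h7 : 0 < (κ * c - b) * (κ * c + b - 2 * c * d) := by
      have e : (κ * c - b) * (κ * c + b - 2 * c * d) = c ^ 2 * (1 - 2 * d * κ + κ ^ 2) +
        (2 * b * c * d - (b ^ 2 + c ^ 2)) := by ring
      rw [e]
      linarith only [hcon, h6]
    have h8 : 0 < κ * c + b - 2 * c * d := pos_of_mul_pos_right h7 (by linarith only [h1])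
    have h9 : c * 1 ≤ c * d := mul_le_mul_of_nonneg_left hd (by linarith only [hc])
    linarith only [h2, h5, h8, h9]

/-- `c < b` implies `2 b c ≤ d` -/
theorem hex_lab {S : ℝ → ℝ → Prop} {b b1 b2 p q r : ℝ} (sy : ∀ X Y, S X Y → S Y X)
    (cl : ∀ X Y, S X Y → S X (2 * b * X - Y)) (po : ∀ X Y, S X Y → 0 < X → Z1 Y) (hS : S q p)
    (hN : q ^ 2 + p ^ 2 - 2 * b * q * p = 1) (hb0 : 0 < b) (hq : 0 < q) (hr : r = 2 * b * q - p)
    (hr1 : 1 ≤ r) (l1 : b1 = 0 ∨ 1 / 2 ≤ b1) (l2 : b2 = 0 ∨ 1 / 2 ≤ b2) (hc : 1 < q * b1 + p * b2)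
    (h : q * b1 + p * b2 < b) : 2 * b * (q * b1 + p * b2) ≤ r * b1 + q * b2 := by
  have n1 : 0 ≤ b1 := by rcases l1 with h | h <;> linarith only [h]
  have n2 : 0 ≤ b2 := by rcases l2 with h | h <;> linarith only [h]
  rcases po _ _ hS hq with hp | hp
  · subst hp
    have hq1 : q = 1 := by
      have h3 : (q - 1) * (q + 1) = 0 := by linear_combination hN
      rcases mul_eq_zero.1 h3 with h | h <;> linarith
    rw [hr, hq1]
    linarith only [n2]
  · have s1 : S p (2 * b * p - q) := cl _ _ (sy _ _ hS)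
    have zo := po _ _ s1 (by linarith only [hp])
    have s2 : S q r := by
      rw [hr]
      exact cl _ _ hS
    have s3 : S r (2 * b * r - q) := cl _ _ (sy _ _ s2)
    have zw := po _ _ s3 (by linarith only [hr1])
    have e1 : (2 * b * p - q) * (2 * b * r - q) = q ^ 2 - (2 * b) ^ 2 := by
      rw [hr]
      linear_combination (-(4 * b ^ 2)) * hN
    have h1 := mul_nonneg (e0Z1 zo) (e0Z1 zw)
    rw [e1] at h1
    have hq2 : 2 * b ≤ q := by
      by_contra h5
      have := pow_lt_pow_left₀ (not_le.1 h5) hq.le two_ne_zero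
      linarith only [h1, this]
    rcases l1 with h3 | h3
    · subst h3
      have hb2 : 1 / 2 ≤ b2 := by
        rcases l2 with h4 | h4
        · exfalso
          rw [h4] at hc
          linarith only [hc]
        · exact h4
      rcases zo with h4 | h4
      · have e2 : q = 2 * b * p := by linarith only [h4]
        rw [e2]
        linarith only []
      · exfalso
        have s4 : S (2 * b * p - q) (2 * b * (2 * b * p - q) - p) := cl _ _ (sy _ _ s1)
        have zo' := po _ _ s4 (by linarith only [h4])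
        have e2 : (2 * b * (2 * b * p - q) - p) * r = p ^ 2 - (2 * b) ^ 2 := by
          rw [hr]
          linear_combination (-(4 * b ^ 2)) * hN
        have h5 := mul_nonneg (e0Z1 zo') (by linarith only [hr1] : 0 ≤ r)
        rw [e2] at h5
        have hp2 : 2 * b ≤ p := by
          by_contra h6
          have := pow_lt_pow_left₀ (not_le.1 h6) (by linarith only [hp]) two_ne_zero
          linarith only [h5, this]
        have h6 : 2 * b * (1 / 2) ≤ p * b2 := mul_le_mul hp2 hb2 (by norm_num) (by linarith only [hc, h, hp2])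
        linarith only [h, h6]
    · exfalso
      have h4 : 2 * b * (1 / 2) ≤ q * b1 := mul_le_mul hq2 h3 (by norm_num) hq.le
      have h5 : 0 ≤ p * b2 := mul_nonneg (by linarith only [hp]) n2
      linarith only [h, h4, h5]

/-- the label check -/
theorem lab_excl {S : ℝ → ℝ → Prop} {b b1 b2 p q r : ℝ} (sy : ∀ X Y, S X Y → S Y X)
    (cl : ∀ X Y, S X Y → S X (2 * b * X - Y)) (po : ∀ X Y, S X Y → 0 < X → Z1 Y) (hS : S q p)
    (hN : q ^ 2 + p ^ 2 - 2 * b * q * p = 1) (hb : 1 / 2 ≤ b) (hq : 0 < q) (hr : r = 2 * b * q - p)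
    (hr1 : 1 ≤ r) (l1 : b1 = 0 ∨ b1 = 1 / 2 ∨ (1 / 2 ≤ b1 ∧ 1 / 2 ≤ b1 ^ 2))
    (l2 : b2 = 0 ∨ b2 = 1 / 2 ∨ (1 / 2 ≤ b2 ∧ 1 / 2 ≤ b2 ^ 2)) (hc : 1 < q * b1 + p * b2)
    (h : 2 * b * (q * b1 + p * b2) * (r * b1 + q * b2) < b ^ 2 + (q * b1 + p * b2) ^ 2) :
    (b2 = 0 ∧ r = 1 ∧ q = 2 * b) ∨
    (b1 = 0 ∧ b2 = 1 / 2 ∧ r = 1 ∧ q = 2 * b ∧ p = 4 * b ^ 2 - 1 ∧ 3 / 4 < b ^ 2) ∨
    (b2 = 0 ∧ b1 = 1 / 2 ∧ r = 2 * b ∧ q = 4 * b ^ 2 - 1 ∧ p = 8 * b ^ 3 - 4 * b ∧ 3 / 4 < b ^ 2) := by
  have hp := po _ _ hS hq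
  have s2 : S q r := by
    rw [hr]
    exact cl _ _ hS
  have s3 : S r (2 * b * r - q) := cl _ _ (sy _ _ s2)
  have zw := po _ _ s3 (by linarith only [hr1])
  obtain ⟨w, hw⟩ : ∃ w, w = 2 * b * r - q := ⟨_, rfl⟩
  rw [← hw] at s3 zw
  have epr : p * r = q ^ 2 - 1 := by rw [hr]; linear_combination -hN
  have eqw : q * w = r ^ 2 - 1 := by
    rw [hw, hr]
    linear_combination -hN
  have epw : p * w = q * r - 2 * b := by
    rw [hw, hr]
    linear_combination (-2 * b) * hN
  have hp0 := e0Z1 hp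
  have hw0 := e0Z1 zw
  have hcn : (r ^ 2 - 1) * b1 ^ 2 + (2 * (q * r) - 2 * b) * (b1 * b2) + (q ^ 2 - 1) * b2 ^ 2 < b ^ 2 := by
    have e : (r ^ 2 - 1) * b1 ^ 2 + (2 * (q * r) - 2 * b) * (b1 * b2) + (q ^ 2 - 1) * b2 ^ 2 =
        2 * b * (q * b1 + p * b2) * (r * b1 + q * b2) - (q * b1 + p * b2) ^ 2 := by
      have e1 : 2 * b * (q * b1 + p * b2) * (r * b1 + q * b2) - (q * b1 + p * b2) ^ 2 =
        (q * b1 + p * b2) * ((2 * b * r - q) * b1 + (2 * b * q - p) * b2) := by ring
      rw [e1, ← hw, ← hr]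
      linear_combination (-b1 ^ 2) * eqw - (b1 * b2) * epw - b2 ^ 2 * epr
    rw [e]
    linarith only [h]
  have hw2 : 0 ≤ r ^ 2 - 1 := by rw [← eqw]; exact mul_nonneg hq.le hw0
  have hp2 : 0 ≤ q ^ 2 - 1 := by rw [← epr]; exact mul_nonneg hp0 (by linarith only [hr1])
  have hqr : 2 * b ≤ q * r := by
    have := mul_nonneg hp0 hw0
    rw [epw] at this
    linarith only [this]
  have hq1 : 1 ≤ q := by nlinarith only [hq, hp2]
  have one_of : ∀ {X : ℝ}, 0 < X → X ^ 2 = 1 → X = 1 := by
    intro X h0 h1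
    have h3 : (X - 1) * (X + 1) = 0 := by linear_combination h1
    rcases mul_eq_zero.1 h3 with h | h <;> linarith
  -- `b2 = 0`
  rcases l2 with h2 | h2
  · subst h2
    have hb1 : 1 / 2 ≤ b1 := by
      rcases l1 with h3 | h3 | h3
      · exfalso
        rw [h3] at hc
        linarith only [hc]
      · linarith only [h3]
      · exact h3.1
    have hb14 : 1 / 4 ≤ b1 ^ 2 := by nlinarith only [hb1]
    have h3 : (r ^ 2 - 1) * b1 ^ 2 < b ^ 2 := by linarith only [hcn]
    rcases zw with h4 | h4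
    · left
      rw [h4, mul_zero] at eqw
      have h5 := one_of (by linarith only [hr1]) (by linarith only [eqw] : r ^ 2 = 1)
      refine ⟨rfl, h5, ?_⟩
      rw [h5, h4] at hw
      linarith only [hw]
    · right; right
      have s4 : S w (2 * b * w - r) := cl _ _ (sy _ _ s3)
      have zw' := po _ _ s4 (by linarith only [h4])
      have e1 : r * (2 * b * w - r) = w ^ 2 - 1 := by
        rw [hw, hr]
        linear_combination -hN
      rcases zw' with h5 | h5
      · rw [h5, mul_zero] at e1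
        have h6 := one_of (by linarith only [h4]) (by linarith only [e1] : w ^ 2 = 1)
        have h7 : r = 2 * b := by rw [h6] at h5; linarith only [h5]
        have h8 : q = 4 * b ^ 2 - 1 := by
          rw [h6, h7] at hw
          linarith only [hw]
        have h9 : p = 8 * b ^ 3 - 4 * b := by
          rw [h7, h8] at hr
          linarith only [hr]
        rw [h7] at h3
        rcases l1 with h10 | h10 | h10
        · exfalso
          linarith only [hb1, h10]
        · refine ⟨rfl, h10, h7, h8, h9, ?_⟩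
          rw [h10, h8] at hc
          linarith only [hc]
        · exfalso
          have h11 : ((2 * b) ^ 2 - 1) * (1 / 2) ≤ ((2 * b) ^ 2 - 1) * b1 ^ 2 :=
            mul_le_mul_of_nonneg_left h10.2 (by linarith only [hq1, h8])
          linarith only [hq1, h3, h8, h11]
      · exfalso
        rcases hp with h6 | h6
        · rw [h6] at hN hr
          have h7 := one_of hq (by linarith only [hN] : q ^ 2 = 1)
          rw [h7] at hr hc
          have h8 : r = 2 * b := by linarith only [hr]
          rw [h7, h8] at eqw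
          rw [h8] at h3
          have h9 : 1 ≤ b1 ^ 2 := by nlinarith only [hc]
          have h10 : ((2 * b) ^ 2 - 1) * 1 ≤ ((2 * b) ^ 2 - 1) * b1 ^ 2 :=
            mul_le_mul_of_nonneg_left h9 (by linarith only [eqw, hw0])
          nlinarith only [hw2, h3, h4, e1, h5, h10]
        · have e2 : p * (2 * b * w - r) = r ^ 2 - (2 * b) ^ 2 := by
            rw [hw, hr]
            linear_combination (-(4 * b ^ 2)) * hN
          have h7 : 1 * 1 ≤ p * (2 * b * w - r) := mul_le_mul h6 h5 (by norm_num) (by linarith only [h6])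
          rw [e2] at h7
          have h8 : (r ^ 2 - 1) * (1 / 4) ≤ (r ^ 2 - 1) * b1 ^ 2 := mul_le_mul_of_nonneg_left hb14 hw2
          linarith only [h3, h7, h8]
  · have hb2 : 1 / 2 ≤ b2 := by
      rcases h2 with h3 | h3
      · linarith only [h3]
      · exact h3.1
    have hb24 : 1 / 4 ≤ b2 ^ 2 := by nlinarith only [hb2]
    rcases l1 with h3 | h3
    · -- `b1 = 0`
      subst h3
      have h4 : (q ^ 2 - 1) * b2 ^ 2 < b ^ 2 := by linarith only [hcn]
      have hp1 : 1 ≤ p := by
        rcases hp with h5 | h5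
        · exfalso
          rw [h5] at hc
          linarith only [hc]
        · exact h5
      rcases zw with h5 | h5
      · right; left
        rw [h5, mul_zero] at eqw
        have h6 := one_of (by linarith only [hr1]) (by linarith only [eqw] : r ^ 2 = 1)
        have h7 : q = 2 * b := by
          rw [h6, h5] at hw
          linarith only [hw]
        have h8 : p = 4 * b ^ 2 - 1 := by
          rw [h6, h7] at hr
          linarith only [hr]
        rcases h2 with h9 | h9
        · refine ⟨rfl, h9, h6, h7, h8, ?_⟩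
          rw [h9, h8] at hc
          linarith only [hc]
        · exfalso
          have h10 : (q ^ 2 - 1) * (1 / 2) ≤ (q ^ 2 - 1) * b2 ^ 2 := mul_le_mul_of_nonneg_left h9.2 hp2
          rw [h7] at h10 h4
          linarith only [h4, hp1, h8, h10]
      · exfalso
        have s1 : S p (2 * b * p - q) := cl _ _ (sy _ _ hS)
        have zo := po _ _ s1 (by linarith only [hp1])
        have e1 : (2 * b * p - q) * q = p ^ 2 - 1 := by linear_combination -hN
        rcases zo with h6 | h6
        · rw [h6, zero_mul] at e1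
          have h7 := one_of (by linarith only [hp1]) (by linarith only [e1] : p ^ 2 = 1)
          rw [h7] at hc h6 epr
          have h8 : q = 2 * b := by linarith only [h6]
          have h9 : 1 ≤ b2 ^ 2 := by nlinarith only [hc]
          have h10 : (q ^ 2 - 1) * 1 ≤ (q ^ 2 - 1) * b2 ^ 2 := mul_le_mul_of_nonneg_left h9 hp2
          rw [h8] at h10 h4
          nlinarith only [hw, epr, hq1, h4, h5, h8, h10]
        · have e2 : (2 * b * p - q) * w = q ^ 2 - (2 * b) ^ 2 := by
            rw [hw, hr]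
            linear_combination (-(4 * b ^ 2)) * hN
          have h7 : 1 * 1 ≤ (2 * b * p - q) * w := mul_le_mul h6 h5 (by norm_num) (by linarith only [h6])
          rw [e2] at h7
          have h8 : (q ^ 2 - 1) * (1 / 4) ≤ (q ^ 2 - 1) * b2 ^ 2 := mul_le_mul_of_nonneg_left hb24 hp2
          linarith only [h4, h7, h8]
    · -- both at least `1/2`
      exfalso
      have hb1 : 1 / 2 ≤ b1 := by
        rcases h3 with h3 | h3
        · linarith only [h3]
        · exact h3.1
      have hb14 : 1 / 4 ≤ b1 ^ 2 := by nlinarith only [hb1]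
      have hb12 : 1 / 4 ≤ b1 * b2 := by nlinarith only [hb2, hb1]
      have h4 : (r ^ 2 - 1) * (1 / 4) ≤ (r ^ 2 - 1) * b1 ^ 2 := mul_le_mul_of_nonneg_left hb14 hw2
      have h5 : (q ^ 2 - 1) * (1 / 4) ≤ (q ^ 2 - 1) * b2 ^ 2 := mul_le_mul_of_nonneg_left hb24 hp2
      have h6 : (2 * (q * r) - 2 * b) * (1 / 4) ≤ (2 * (q * r) - 2 * b) * (b1 * b2) :=
        mul_le_mul_of_nonneg_left hb12 (by linarith only [hb, hqr])
      have h7 : q ^ 2 + r ^ 2 = 1 + 2 * b * (q * r) := by
        rw [hr]
        linear_combination hN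
      have h8 : (2 * b + 2) * (2 * b) ≤ (2 * b + 2) * (q * r) := mul_le_mul_of_nonneg_left hqr (by linarith only [hb])
      linarith only [hb, hcn, h4, h5, h6, h7, h8]

end Pool.Agent.Helper97.DY
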