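import Pool.Agent.Helper97.DY.N1

/-!
# GAP1: `h = d2`, or one of three exceptions (MP_d13a5e_al)
-/

set_option autoImplicit false

namespace Pool.Agent.Helper97.DY

open Set
open _root_.DY (Z1 e0Z1 Xs OFA GD gd89 relB89 adj89 SO CP Tri)

section Real

variable {b c d g u v g' u' v' fa fh K : ℝ}

theorem relE2 (hN : g ^ 2 + u ^ 2 + v ^ 2 - 2 * c * g * u - 2 * d * g * v + 2 * b * u * v = 1)
    (fx : g = -fa * u - fh * v) (fy : g' = -fa * u' - fh * v')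
    (hK : g * g' + u * u' + v * v' - c * (g * u' + u * g') - d * (g * v' + v * g') +
      b * (u * v' + v * u') = K) :
    (v * u' - u * v') * ((v + b * u - d * g) + fh * (c * u + d * v - g)) = u' - u * K := by
  subst fx fy
  linear_combination u' * hN - u * hK

theorem relE1 (hN : g ^ 2 + u ^ 2 + v ^ 2 - 2 * c * g * u - 2 * d * g * v + 2 * b * u * v = 1)
    (hN' : g' ^ 2 + u' ^ 2 + v' ^ 2 - 2 * c * g' * u' - 2 * d * g' * v' + 2 * b * u' * v' = 1)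
    (fx : g = -fa * u - fh * v) (fy : g' = -fa * u' - fh * v')
    (hK : g * g' + u * u' + v * v' - c * (g * u' + u * g') - d * (g * v' + v * g') +
      b * (u * v' + v * u') = K) :
    (v * u' - u * v') ^ 2 * (1 - 2 * d * -fh + (-fh) ^ 2) = u' ^ 2 + u ^ 2 - 2 * (u * u') * K := by
  subst fx fy
  linear_combination u' ^ 2 * hN + u ^ 2 * hN' - 2 * (u * u') * hK

end Real

variable {E : Type*} [AddCommGroup E] [Module ℝ E]
variable {Ψ : Set E} {B : E →ₗ[ℝ] E →ₗ[ℝ] ℝ} {ρ φ : E →ₗ[ℝ] ℝ} {t d1 d2 x x' : E}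
variable {g x1 x2 g' x1' x2' q p r w : ℝ}

theorem lab3 {u v : E} {e : ℝ} (hC : CP Ψ B u v e) : e = 0 ∨ e = 1 / 2 ∨ (1 / 2 ≤ e ∧ 1 / 2 ≤ e ^ 2) := by
  rcases hC.b_cases with h | h
  · exact Or.inl h
  · right
    rcases hC.lab3_89 (by linarith) with h1 | h1
    · exact Or.inl h1
    · exact Or.inr ⟨h, h1⟩

/-- **the exceptions** -/
theorem excl (X : Xs Ψ B ρ φ t d1 d2 x x' g x1 x2 g' x1' x2') (O : OFA Ψ B φ d1 d2 q p r w)
    (hb : 1 / 2 ≤ -B d1 d2) (hc : 1 < q * -B t d1 + p * -B t d2) (hr1 : 1 ≤ r) (hu : 0 < x1 * w - x2 * r)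
    (hu' : 0 < x1' * w - x2' * r) (hv : 0 < q * x2 - p * x1) (hv' : 0 ≤ q * x2' - p * x1') :
    (B t d2 = 0 ∧ r = 1 ∧ w = 2 * -B d1 d2) ∨
    (B t d1 = 0 ∧ B t d2 = -(1 / 2) ∧ r = 1 ∧ w = 2 * -B d1 d2 ∧ p = 4 * (-B d1 d2) ^ 2 - 1 ∧
      3 / 4 < (-B d1 d2) ^ 2) ∨
    (B t d2 = 0 ∧ B t d1 = -(1 / 2) ∧ r = 2 * -B d1 d2 ∧ w = 4 * (-B d1 d2) ^ 2 - 1 ∧
      p = 8 * (-B d1 d2) ^ 3 - 4 * -B d1 d2 ∧ 3 / 4 < (-B d1 d2) ^ 2) := by
  have L := X.L
  obtain ⟨hw, hr⟩ := adj89 (b := -B d1 d2) (q := q) (p := p) (r := r) (w := w)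
    (by linear_combination O.ra.nrm) O.det (by linear_combination O.adj)
  subst hw
  have G := gd89 X O
  have hA := G.hA hv hv'
  have hT := G.T
  have hK := G.hK
  have C1 : CP Ψ B t d1 (-B t d1) := L.tri.cp
  have C2 : CP Ψ B t d2 (-B t d2) := L.tri.cp'
  have l1 := lab3 C1
  have l2 := lab3 C2
  have n1 := C1.b_nonneg
  have n2 := C2.b_nonneg
  have hq0 := e0Z1 O.ra.z1
  have hp0 := e0Z1 O.ra.z2
  have nrm : w ^ 2 + p ^ 2 - 2 * (-B d1 d2) * w * p = 1 := by linear_combination O.ra.nrm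
  have hq : 0 < w := by
    rcases O.ra.z1 with h | h
    · exfalso
      rw [h] at hr
      linarith
    · linarith
  have sO : SO Ψ d1 d2 w p := Or.inl O.ra.mem
  have cl : ∀ X Y, SO Ψ d1 d2 X Y → SO Ψ d1 d2 X (2 * -B d1 d2 * X - Y) := fun X Y h => h.cl L.tri
  have po : ∀ X Y, SO Ψ d1 d2 X Y → 0 < X → Z1 Y := fun X Y h hX => h.po L.tri hX
  have sy : ∀ X Y, SO Ψ d1 d2 X Y → SO Ψ d1 d2 Y X := fun X Y h => h.symm
  have E1 := relE1 G.nrm G.nrm' G.fx G.fy G.val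
  have E2 := relE2 G.nrm G.fx G.fy G.val
  have st := G.st
  have e1 : 0 < 1 - 2 * (r * -B t d1 + w * -B t d2) * -φ (r • d1 + w • d2) + (-φ (r • d1 + w • d2)) ^ 2 := by
    have h0 : 0 < (x1' * w - x2' * r) ^ 2 + (x1 * w - x2 * r) ^ 2 -
        2 * ((x1 * w - x2 * r) * (x1' * w - x2' * r)) * B x x' := by
      have h1 := mul_nonneg (mul_pos hu hu').le (by linarith : 0 ≤ -B x x')
      have h2 : 0 < (x1' * w - x2' * r) ^ 2 := by positivity
      have h3 := sq_nonneg (x1 * w - x2 * r)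
      linarith
    rw [← E1] at h0
    exact pos_of_mul_pos_right h0 (sq_nonneg _)
  have e2 : -φ (r • d1 + w • d2) * ((w * -B t d1 + p * -B t d2) * (x1 * w - x2 * r) +
      (r * -B t d1 + w * -B t d2) * (w * x2 - p * x1) - g) < (w * x2 - p * x1) + -B d1 d2 * (x1 * w - x2 * r) -
      (r * -B t d1 + w * -B t d2) * g := by
    have h1 := mul_nonneg hu.le (by linarith : 0 ≤ -B x x')
    have h2 := pos_of_mul_pos_right (by rw [E2]; linarith) st.le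
    linarith
  have hg0 := e0Z1 X.c.zg
  have h0 := excl_real (by linarith) hc hu hv (by linarith [G.fh]) G.fa (by linarith [G.fx]) hg0 hA hT e1 e2
    (fun h => hex_lab sy cl po sO nrm (by linarith) hq hr hr1 C1.b_cases C2.b_cases hc h)
  rcases lab_excl sy cl po sO nrm hb hq hr hr1 l1 l2 hc h0 with ⟨h1, h2, h3⟩ | ⟨h1, h2, h3, h4, h5, h6⟩ |
    ⟨h1, h2, h3, h4, h5, h6⟩
  · exact Or.inl ⟨by linarith, h2, h3⟩
  · exact Or.inr (Or.inl ⟨by linarith, by linarith, h3, h4, h5, h6⟩)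
  · exact Or.inr (Or.inr ⟨by linarith, by linarith, h3, h4, h5, h6⟩)

end Pool.Agent.Helper97.DY
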