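import Mathlib

/-!
# GAP1, `h ≠ d2`, the family (B), real inequalities (MP_d13a5e_al)
-/

set_option autoImplicit false

namespace Pool.Agent.Helper97.DY

theorem s_18 {s : ℝ} (hs0 : 0 < s) (h3 : 3 < s ^ 2) (h6 : 1 ≤ s * (s ^ 2 - 1) * (s ^ 2 - 3)) : 9 / 5 ≤ s := by
  by_contra hcon
  have hcon := not_le.1 hcon
  have h1 : s ^ 2 < 81 / 25 := by nlinarith
  have h2 : (s ^ 2 - 1) * (s ^ 2 - 3) ≤ (56 / 25) * (6 / 25) :=
    mul_le_mul (by linarith) (by linarith) (by linarith) (by norm_num)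
  have h4 : s * ((s ^ 2 - 1) * (s ^ 2 - 3)) ≤ (9 / 5) * ((56 / 25) * (6 / 25)) :=
    mul_le_mul hcon.le h2 (mul_nonneg (by linarith) (by linarith)) (by norm_num)
  have h5 : s * (s ^ 2 - 1) * (s ^ 2 - 3) = s * ((s ^ 2 - 1) * (s ^ 2 - 3)) := by ring
  rw [h5] at h6
  norm_num at h4
  linarith

theorem e_617 {e p : ℝ} (he : e ^ 2 - p * e + 1 = 0) (he0 : 0 < e) (he1 : e < 1) (hp : 56 / 25 ≤ p) :
    e ≤ 617 / 1000 := by
  by_contra hcon
  have hcon := not_le.1 hcon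
  have h1 : (56 / 25) * e ≤ p * e := mul_le_mul_of_nonneg_right hp he0.le
  have h2 : 0 < (e - 617 / 1000) * (1 - e) := mul_pos (by linarith) (by linarith)
  nlinarith

theorem e_4 {e p : ℝ} (he : e ^ 2 - p * e + 1 = 0) (he0 : 0 < e) (he1 : e < 1) (hp : 3 ≤ p) :
    e ≤ 2 / 5 := by
  by_contra hcon
  have hcon := not_le.1 hcon
  have h1 : 3 * e ≤ p * e := mul_le_mul_of_nonneg_right hp he0.le
  have h2 : 0 < (e - 2 / 5) * (1 - e) := mul_pos (by linarith) (by linarith)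
  nlinarith

/-- the bound for `U` -/
theorem u_37 {e p U : ℝ} (he : e ^ 2 - p * e + 1 = 0) (he0 : 0 < e) (h617 : e ≤ 617 / 1000) (hp : p < 3)
    (hU : (1 - e ^ 2) * U ≤ p) : U ≤ 37 / 10 := by
  have h1 : 38 / 100 ≤ e := by
    by_contra hcon
    have hcon := not_le.1 hcon
    have h2 : p * e ≤ 3 * e := mul_le_mul_of_nonneg_right hp.le he0.le
    nlinarith
  have h2 : 0 < e * (1 - e ^ 2) := mul_pos he0 (by nlinarith)
  have h3 : e * (1 - e ^ 2) * U ≤ e * (1 - e ^ 2) * (37 / 10) := by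
    have h4 : e * ((1 - e ^ 2) * U) ≤ e * p := mul_le_mul_of_nonneg_left hU he0.le
    have h5 : 0 ≤ (e - 38 / 100) * (617 / 1000 - e) * ((37 / 10) * (e + 38 / 100 + 617 / 1000) + 1) :=
      mul_nonneg (mul_nonneg (by linarith) (by linarith)) (by linarith)
    nlinarith
  exact le_of_mul_le_mul_left h3 h2

/-- the polygon -/
theorem poly0 {B U : ℝ} (h1 : 1 ≤ U) (h2 : U + 1 ≤ B) (h3 : U ≤ 37 / 10)
    (h4 : 0 ≤ 448 / 100 + (762 / 1000) * U - (124 / 100) * B) :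
    (448 / 100 + (762 / 1000) * U - (124 / 100) * B) ^ 2 <
      (324 / 100) * (4 + (24 / 100) * B ^ 2 - (B - 2 * U) ^ 2) := by
  have l1 : 0 ≤ U - 1 := by linarith
  have l2 : 0 ≤ B - 1 - U := by linarith
  have l3 : 0 ≤ 37 / 10 - U := by linarith
  nlinarith [mul_nonneg l1 l2, mul_nonneg l1 l3, mul_nonneg l1 h4, mul_nonneg l2 l3, mul_nonneg l2 h4,
    mul_nonneg l3 h4, mul_nonneg l1 l1, mul_nonneg l2 l2, mul_nonneg l3 l3, mul_nonneg h4 h4]

/-- the index `j = 6` -/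
theorem j6 {s p e A B U : ℝ} (hs0 : 0 < s) (hs : p = s ^ 2 - 1) (h3 : 3 < s ^ 2)
    (h6 : 1 ≤ s * (s ^ 2 - 1) * (s ^ 2 - 3)) (he : e ^ 2 - p * e + 1 = 0) (he0 : 0 < e) (he1 : e < 1)
    (hU : 1 ≤ U) (hBU : U + 1 ≤ B) (hAB : 2 * A < s * B) (hi : s * A ≤ p * B - U)
    (hn : A ^ 2 + B ^ 2 + U ^ 2 - s * A * B - B * U = 1) : s * A + e ^ 2 * U < p * (B - 1) := by
  rcases lt_or_ge p ((1 - e ^ 2) * U) with h1 | h1
  · linarith
  have hs18 := s_18 hs0 h3 h6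
  have hp : 56 / 25 ≤ p := by rw [hs]; nlinarith
  have h617 := e_617 he he0 he1 hp
  obtain ⟨ε, hε⟩ : ∃ ε, ε = s * B - 2 * A := ⟨_, rfl⟩
  have hε0 : 0 < ε := by linarith
  have hεn : ε ^ 2 = 4 + (p - 2) * B ^ 2 - (B - 2 * U) ^ 2 := by
    rw [hε, hs]
    linear_combination 4 * hn
  have hA : 2 * (s * A) = (p + 1) * B - s * ε := by
    rw [hε, hs]
    ring
  have he2 : 0 ≤ e ^ 2 := sq_nonneg e
  rcases lt_or_ge p 3 with h2 | h2
  · have hU3 := u_37 he he0 h617 h2 h1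
    by_contra hcon
    have hcon := not_lt.1 hcon
    have k1 : (56 / 25) * (B - 2) ≤ p * (B - 2) := mul_le_mul_of_nonneg_right hp (by linarith)
    have k2 : (9 / 5) * ε ≤ s * ε := mul_le_mul_of_nonneg_right hs18 hε0.le
    have k3 : e ^ 2 ≤ 381 / 1000 := by nlinarith
    have k4 : e ^ 2 * U ≤ 381 / 1000 * U := mul_le_mul_of_nonneg_right k3 (by linarith)
    have k5 : (9 / 5) * ε ≤ 448 / 100 + (762 / 1000) * U - (124 / 100) * B := by linarith
    have k6 := poly0 hU hBU hU3 (by linarith)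
    have k7 : ((9 / 5) * ε) ^ 2 ≤ (448 / 100 + (762 / 1000) * U - (124 / 100) * B) ^ 2 :=
      pow_le_pow_left₀ (by linarith) k5 2
    have k8 : (56 / 25 - 2) * B ^ 2 ≤ (p - 2) * B ^ 2 := mul_le_mul_of_nonneg_right (by linarith) (sq_nonneg B)
    have k9 : ((9 / 5) * ε) ^ 2 = (324 / 100) * (4 + (p - 2) * B ^ 2 - (B - 2 * U) ^ 2) := by
      rw [← hεn]
      ring
    rw [k9] at k7
    linarith
  · have h4 := e_4 he he0 he1 h2
    have hs2 : 2 ≤ s := by nlinarith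
    have k1 : 3 * (B - 2) ≤ p * (B - 2) := mul_le_mul_of_nonneg_right h2 (by linarith)
    have k3 : e ^ 2 ≤ 16 / 100 := by nlinarith
    have k4 : e ^ 2 * U ≤ 16 / 100 * U := mul_le_mul_of_nonneg_right k3 (by linarith)
    have k5 : 8 ≤ ε ^ 2 := by
      rw [hεn]
      have k6 : 1 * B ^ 2 ≤ (p - 2) * B ^ 2 := mul_le_mul_of_nonneg_right (by linarith) (sq_nonneg B)
      have k7 : 0 ≤ (U - 1) * (B - 1 - U) := mul_nonneg (by linarith) (by linarith)
      nlinarith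
    have k6 : 28 / 10 ≤ ε := by
      by_contra hcon
      have := pow_lt_pow_left₀ (not_le.1 hcon) hε0.le two_ne_zero
      norm_num at this
      linarith
    have k7 : 2 * (28 / 10) ≤ s * ε := mul_le_mul hs2 k6 (by norm_num) hs0.le
    linarith

/-- `κ (1 + s) ≤ s` -/
theorem e_le {s p e : ℝ} (hs0 : 0 < s) (hs : p = s ^ 2 - 1) (h3 : 3 < s ^ 2)
    (h6 : 1 ≤ s * (s ^ 2 - 1) * (s ^ 2 - 3)) (he : e ^ 2 - p * e + 1 = 0) (he1 : e < 1) :
    e * (1 + s) ≤ s := by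
  have h1 : 1 ≤ s * (s + 1) * (s ^ 2 - 3) := by
    rcases le_or_gt s 2 with h | h
    · have h2 : s * (s ^ 2 - 1) * (s ^ 2 - 3) = (s * (s + 1) * (s ^ 2 - 3)) * (s - 1) := by ring
      have h4 : 0 ≤ s * (s + 1) * (s ^ 2 - 3) := mul_nonneg (mul_nonneg hs0.le (by linarith)) (by linarith)
      have h5 : (s * (s + 1) * (s ^ 2 - 3)) * (s - 1) ≤ (s * (s + 1) * (s ^ 2 - 3)) * 1 :=
        mul_le_mul_of_nonneg_left (by linarith) h4
      linarith
    · have h2 : 2 * 3 ≤ s * (s + 1) := mul_le_mul h.le (by linarith) (by norm_num) (by linarith)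
      have h4 : 1 ≤ s ^ 2 - 3 := by nlinarith
      nlinarith
  by_contra hcon
  have hcon := not_le.1 hcon
  have h2 : (e * (1 + s) - s) * (e * (1 + s) + s - p * (1 + s)) =
      -((1 + s) ^ 2 + s ^ 2 - p * s * (1 + s)) := by
    linear_combination (1 + s) ^ 2 * he
  have h4 : (1 + s) ^ 2 + s ^ 2 - p * s * (1 + s) = 1 - s * (s + 1) * (s ^ 2 - 3) := by
    rw [hs]
    ring
  rw [h4] at h2
  have h5 : e * (1 + s) < 1 * (1 + s) := mul_lt_mul_of_pos_right he1 (by linarith)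
  have h6 : 2 * (1 + s) < p * (1 + s) := mul_lt_mul_of_pos_right (by linarith) (by linarith)
  have h7 : (e * (1 + s) - s) * (e * (1 + s) + s - p * (1 + s)) < 0 :=
    mul_neg_of_pos_of_neg (by linarith) (by linarith)
  rw [h2] at h7
  linarith

/-- the numerator of the coefficient at an odd index `j = 2 n + 7` -/
theorem odd_pos {s p e a c : ℝ} (hs0 : 0 < s) (hs : p = s ^ 2 - 1) (h3 : 3 < s ^ 2)
    (h6 : 1 ≤ s * (s ^ 2 - 1) * (s ^ 2 - 3)) (he : e ^ 2 - p * e + 1 = 0) (he0 : 0 < e) (he1 : e < 1)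
    (ha : 0 ≤ a) (hT : 0 < (s * (s * (s * c - a) - c) - (s * c - a)) + (s * (s * c - a) - c)) :
    0 < (1 / 2) * ((s * (s * c - a) - c) + (s * c - a)) + s * ((s * (s * c - a) - c) + (s * c - a)) -
      (1 + e) * ((s * (s * (s * c - a) - c) - (s * c - a)) + (s * (s * c - a) - c)) - (s * c - a) := by
  have h1 := e_le hs0 hs h3 h6 he he1
  have hs1 : 17 / 10 < s := by nlinarith
  have h2 : 0 < (s ^ 2 - s - 1) / 2 + s * e * (1 - e) - e ^ 2 := by
    have h4 : 0 ≤ e * (s - e * (1 + s)) := mul_nonneg he0.le (by linarith)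
    have h5 : 0 < s ^ 2 - s - 1 := by nlinarith
    nlinarith
  have hT3 : 0 < s ^ 3 - 2 * s + (s ^ 2 - 1) := by
    have h4 : 0 < s * (s ^ 2 - 2) := mul_pos hs0 (by linarith)
    nlinarith
  obtain ⟨T, hTd⟩ : ∃ T, T = (s * (s * (s * c - a) - c) - (s * c - a)) + (s * (s * c - a) - c) := ⟨_, rfl⟩
  have key : (s ^ 3 - 2 * s + (s ^ 2 - 1)) *
      ((1 / 2) * ((s * (s * c - a) - c) + (s * c - a)) + s * ((s * (s * c - a) - c) + (s * c - a)) -
      (1 + e) * ((s * (s * (s * c - a) - c) - (s * c - a)) + (s * (s * c - a) - c)) - (s * c - a)) =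
      T * ((s ^ 2 - s - 1) / 2 + s * e * (1 - e) - e ^ 2) + a * ((s + 2) / 2 + s ^ 2 + s - 1) := by
    rw [hTd]
    rw [hs] at he
    linear_combination ((s * (s * (s * c - a) - c) - (s * c - a)) + (s * (s * c - a) - c)) * (1 + s) * he
  rw [← hTd] at hT
  have h7 : 0 < T * ((s ^ 2 - s - 1) / 2 + s * e * (1 - e) - e ^ 2) + a * ((s + 2) / 2 + s ^ 2 + s - 1) := by
    have h8 := mul_pos hT h2
    have h9 : 0 ≤ a * ((s + 2) / 2 + s ^ 2 + s - 1) := mul_nonneg ha (by nlinarith)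
    linarith
  rw [← key] at h7
  exact pos_of_mul_pos_right h7 hT3.le

/-- even index `j = 2 n + 8` -/
theorem even_pos {s p e a c : ℝ} (hs : p = s ^ 2 - 1) (h3 : 3 < s ^ 2)
    (he : e ^ 2 - p * e + 1 = 0) (he0 : 0 < e) (he1 : e < 1)
    (ha : 0 ≤ a) (hT : 0 < s * (s * (s * c - a) - c) - (s * c - a)) :
    0 < (s * c - a) - e * (s * (s * (s * c - a) - c) - (s * c - a)) := by
  obtain ⟨T, hTd⟩ : ∃ T, T = s * (s * (s * c - a) - c) - (s * c - a) := ⟨_, rfl⟩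
  have key : (s ^ 2 - 2) * ((s * c - a) - e * (s * (s * (s * c - a) - c) - (s * c - a))) =
      T * (e - e ^ 2) + a := by
    rw [hTd]
    rw [hs] at he
    linear_combination (-1 : ℝ) * (s * (s * (s * c - a) - c) - (s * c - a)) * (-1) * he
  rw [← hTd] at hT
  have h1 : 0 < T * (e - e ^ 2) := mul_pos hT (by nlinarith)
  have h2 : 0 < T * (e - e ^ 2) + a := by linarith
  rw [← key] at h2
  exact pos_of_mul_pos_right h2 (by linarith)

end Pool.Agent.Helper97.DY
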