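import Pool.Agent.Helper97.DY.N3
import Pool.Agent.Helper97.DY.M3
import Pool.Agent.Helper29.DY.Gp

/-!
# GAP1, `h ≠ d2`, the family (B) (MP_d13a5e_al)

The chamber is `(t; e, h)`, `e = -(t + d2)`, with the labels `1/2, b, 0`; `a = t + e + 2 b h`.
`(g', u', y')` is `x_L`, `(g, u, y)` is `x_R`, `κ = -φ h`, `f = φ e`, `r1 = ρ e`, `r = ρ h`.
-/

set_option autoImplicit false

namespace Pool.Agent.Helper97.DY

open _root_.DY (Z1 sq sq_cassini sq_diff_le sq_incr)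
open _root_.DY.St29 (ev Ta two_star two_B Lval rt_sq_one rt_sq_next even_ix odd_ix Ix fan_val)
open Pool.Agent.Helper62.DY (RT)
open Pool.Agent.Helper32.DY (fw fe fe_z fe_n fe_r fm fm_rec Two z1_nonneg z1_one)

variable {b : ℝ} {R : ℝ → ℝ → ℝ → Prop}
variable {κ f g u y g' u' y' τ r1 r e : ℝ}

/-- `Ix` gives `Idx` -/
theorem idx_of {k : ℕ} (I : Ix b κ r k τ) : Idx b κ τ r k where
  hs := fun i hi => by
    have := I.pos (i + 1) (by omega) (by omega)
    linarith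
  hf := I.hf
  s3 := by rcases I.alt with ⟨-, h, -⟩ | ⟨-, h, -⟩ <;> linarith
  hS := I.hS
  hd := I.hd
  hr := by rcases I.alt with ⟨-, -, h⟩ | ⟨-, -, -, -, h⟩ <;> linarith

/-- corner inequality, positive coefficient -/
theorem Idx.corner' {b1 bO b2 : ℝ} {k : ℕ} {x1 x2 v y2 : ℝ} (I : Idx b2 κ τ r k)
    (T : Two b1 b2 bO R κ f g x1 x2 g' v y2)
    (hX : g' + v * r1 + y2 * r ≤ 1) (hX' : 0 ≤ g + x1 * r1 + x2 * r) {μ ν ke : ℝ}
    (he : -ke ≤ r1 + μ * r + ν) (hμ : 0 ≤ y2 - μ * v)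
    (hG : 0 < fw b1 bO (k + 2) / 2 * τ + ev b1 b2 bO τ (μ * τ - ν - ke) (k + 1)) : False := by
  have h1 := I.star T hX hX'
  have hv := T.v1
  have h2 := gen (b1 := b1) (bO := bO) I.hS I.hd h1 (by linarith) I.hr he hμ rfl
  have h3 : 0 ≤ (r + τ) * (y2 - μ * v) := mul_nonneg (by linarith [I.hr]) hμ
  have h4 := mul_pos hG (by linarith : 0 < v)
  linarith

theorem fw0 (k : ℕ) : fw (1 / 2) 0 (2 * k) = 1 := by
  rw [fw_even]
  norm_num

theorem fw1 (k : ℕ) : fw (1 / 2) 0 (2 * k + 1) = 0 := by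
  rw [fw_odd]
  norm_num

/-- **family (B)** -/
theorem famB {k : ℕ} (T : Two (1 / 2) b 0 R κ f g' u' y' g u y) (I : Ix b κ r k τ) (hs : 3 < (2 * b) ^ 2)
    (hX : g + u * r1 + y * r ≤ 1) (hX' : 0 ≤ g' + u' * r1 + y' * r) (hfa : 0 ≤ f - 2 * b * κ + 1)
    (hv : 0 < y - 2 * b * u) (hβ : 0 ≤ 4 * b ^ 2 * g - 2 * b * y - g - u)
    (he : e ^ 2 - ((2 * b) ^ 2 - 1) * e + 1 = 0) (he0 : 0 < e) (he1 : e < 1)
    (hra : -e ≤ r1 + 2 * b * r + 1) : False := by
  have hu := T.v1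
  have hI := idx_of I
  have hb0 : 0 < 2 * b := by linarith [I.hb]
  have fv := fun n => fan_val (1 / 2) b 0 κ f u y g n
  have hfy := T.fy
  have ez := fun n => z1_nonneg (fe_z T.h T.hy (by linarith) n)
  have w1 : fw (1 / 2) 0 1 = 0 := fw1 0
  have w2 : fw (1 / 2) 0 2 = 1 := fw0 1
  have w3 : fw (1 / 2) 0 3 = 0 := fw1 1
  have w4 : fw (1 / 2) 0 4 = 1 := fw0 2
  have w5 : fw (1 / 2) 0 5 = 0 := fw1 2
  have w6 : fw (1 / 2) 0 6 = 1 := fw0 3
  have v0 : ev (1 / 2) b 0 κ f 0 = f := rfl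
  have v1 : ev (1 / 2) b 0 κ f 1 = f := by
    show ev (1 / 2) b 0 κ f 0 - fw (1 / 2) 0 1 * fm b κ 1 = f
    rw [w1, v0]
    ring
  have v2 : ev (1 / 2) b 0 κ f 2 = f - 2 * b * κ + 1 := by
    have h1 : ev (1 / 2) b 0 κ f 2 = ev (1 / 2) b 0 κ f 1 - fw (1 / 2) 0 2 * fm b κ 2 := rfl
    have h2 : fm b κ 2 = κ * (2 * b * 1 - 0) - 1 := rfl
    rw [h1, w2, v1, h2]
    ring
  have v3 : ev (1 / 2) b 0 κ f 3 = f - 2 * b * κ + 1 := by
    have h1 : ev (1 / 2) b 0 κ f 3 = ev (1 / 2) b 0 κ f 2 - fw (1 / 2) 0 3 * fm b κ 3 := rfl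
    rw [h1, w3, v2]
    ring
  have v4 : ev (1 / 2) b 0 κ f 4 = f - 2 * b * κ + 1 - fm b κ 4 := by
    have h1 : ev (1 / 2) b 0 κ f 4 = ev (1 / 2) b 0 κ f 3 - fw (1 / 2) 0 4 * fm b κ 4 := rfl
    rw [h1, w4, v3]
    ring
  match k, I, hI with
  | 0, I, hI =>
    have h1 := fv 2
    rw [v2] at h1
    have h2 := T.e_pos (I.hf 2 (by omega))
    have h3 := mul_nonneg (ez 3) (I.hf 2 (by omega)).le
    have h4 : fe (1 / 2) b 0 u y g 2 * fm b κ 3 < 0 := mul_neg_of_pos_of_neg (by linarith) I.hf3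
    have h5 := mul_nonneg (by linarith : 0 ≤ u) hfa
    have e1 : fe (1 / 2) b 0 u y g (2 + 1) = fe (1 / 2) b 0 u y g 3 := rfl
    have e2 : fm b κ (2 + 1) = fm b κ 3 := rfl
    rw [e1, e2] at h1
    linarith
  | 1, I, hI =>
    have h1 := fv 3
    rw [v3] at h1
    have h2 := T.e_pos (I.hf 3 (by omega))
    have h3 := mul_nonneg (ez 4) (I.hf 3 (by omega)).le
    have h4 : fe (1 / 2) b 0 u y g 3 * fm b κ 4 < 0 := mul_neg_of_pos_of_neg (by linarith) I.hf3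
    have h5 := mul_nonneg (by linarith : 0 ≤ u) hfa
    have e1 : fe (1 / 2) b 0 u y g (3 + 1) = fe (1 / 2) b 0 u y g 4 := rfl
    have e2 : fm b κ (3 + 1) = fm b κ 4 := rfl
    rw [e1, e2] at h1
    linarith
  | 2, I, hI =>
    have h1 := fv 4
    rw [v4] at h1
    have h2 := T.e_pos (I.hf 4 (by omega))
    have f4 := I.hf 4 (by omega)
    have h4 : fe (1 / 2) b 0 u y g 4 * fm b κ 5 < 0 := mul_neg_of_pos_of_neg (by linarith) I.hf3
    have h5 := mul_nonneg (by linarith : 0 ≤ u) hfa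
    have e1 : fe (1 / 2) b 0 u y g (4 + 1) = fe (1 / 2) b 0 u y g 5 := rfl
    have e2 : fm b κ (4 + 1) = fm b κ 5 := rfl
    rw [e1, e2] at h1
    have h6 : (Z1 (fe (1 / 2) b 0 u y g 4) ∧ Z1 (fe (1 / 2) b 0 u y g 5) ∧
        Z1 (fw (1 / 2) 0 5 * fe (1 / 2) b 0 u y g 4 + fw (1 / 2) 0 4 * fe (1 / 2) b 0 u y g 5 - u)) ∨
      (Z1 (-fe (1 / 2) b 0 u y g 4) ∧ Z1 (-fe (1 / 2) b 0 u y g 5) ∧
        Z1 (-(fw (1 / 2) 0 5 * fe (1 / 2) b 0 u y g 4 + fw (1 / 2) 0 4 * fe (1 / 2) b 0 u y g 5 - u))) :=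
      fe_r T.h T.hy 4
    rw [w5, w4] at h6
    have h7 : 0 ≤ fe (1 / 2) b 0 u y g 5 - u := by
      rcases h6 with ⟨-, -, h⟩ | ⟨h, -, -⟩
      · have := z1_nonneg h
        linarith
      · exfalso
        have := z1_nonneg h
        linarith
    have h8 := mul_nonneg h7 f4.le
    linarith
  | 3, I, hI =>
    have hL := Lval (b1 := 1 / 2) (bO := 0) I.hS I.hd (2 * b * τ - 1 - e) u y g
    obtain ⟨i1, i2⟩ := even_ix (b1 := 1 / 2) (bO := 0) (b2 := b) (τ := τ) (l := 1)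
      (by linarith [I.pos 5 (by omega) (by omega)]) I.hd (2 * b * τ - 1 - e)
    obtain ⟨s, hsd⟩ : ∃ s, s = 2 * b := ⟨_, rfl⟩
    have e2 : sq b (1 + 1) = s := by rw [hsd]; show 2 * b * 1 - 0 = _; ring
    have e3 : sq b (1 + 2) = s ^ 2 - 1 := by rw [hsd]; show 2 * b * (2 * b * 1 - 0) - 1 = _; ring
    have e6 : sq b (3 + 3) = s * (s ^ 2 - 1) * (s ^ 2 - 3) := by
      rw [hsd]
      show 2 * b * (2 * b * (2 * b * (2 * b * (2 * b * 1 - 0) - 1) - (2 * b * 1 - 0)) -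
        (2 * b * (2 * b * 1 - 0) - 1)) - (2 * b * (2 * b * (2 * b * 1 - 0) - 1) - (2 * b * 1 - 0)) = _
      ring
    have f2 : fe (1 / 2) b 0 u y g 2 = s * g - y := by
      have h : fe (1 / 2) b 0 u y g 2 = 2 * b * g + fw (1 / 2) 0 1 * u - y := rfl
      rw [h, w1, hsd]
      ring
    have f3 : fe (1 / 2) b 0 u y g 3 = s * (s * g - y) + u - g := by
      have h : fe (1 / 2) b 0 u y g 3 = 2 * b * fe (1 / 2) b 0 u y g 2 + fw (1 / 2) 0 2 * u - g := rfl
      rw [h, w2, f2, hsd]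
      ring
    have f5 : fe (1 / 2) b 0 u y g 5 = s * fe (1 / 2) b 0 u y g 4 + u - fe (1 / 2) b 0 u y g 3 := by
      have h : fe (1 / 2) b 0 u y g 5 = 2 * b * fe (1 / 2) b 0 u y g 4 + fw (1 / 2) 0 4 * u -
        fe (1 / 2) b 0 u y g 3 := rfl
      rw [h, w4, hsd]
      ring
    have f6 : fe (1 / 2) b 0 u y g 6 = s * fe (1 / 2) b 0 u y g 5 - fe (1 / 2) b 0 u y g 4 := by
      have h : fe (1 / 2) b 0 u y g 6 = 2 * b * fe (1 / 2) b 0 u y g 5 + fw (1 / 2) 0 5 * u -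
        fe (1 / 2) b 0 u y g 4 := rfl
      rw [h, w5, hsd]
      ring
    have hr := T.r_pos (I.hf 4 (by omega)) (I.hf 5 (by omega))
    have hd := (T.diff 3).2
    have hdp : 0 < fe (1 / 2) b 0 u y g 4 - fe (1 / 2) b 0 u y g 6 := by
      have h1 : fe (1 / 2) b 0 u y g 4 - fe (1 / 2) b 0 u y g 6 =
        fm b κ 5 * (2 * (1 / 2) * u + 2 * b * y - 2 * g) +
        sq b 5 * ((2 * y - 2 * b * g - 2 * 0 * u) - κ * (2 * (1 / 2) * u + 2 * b * y - 2 * g)) := hd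
      rw [h1]
      have hc := T.b_pos
      have hδ : 0 ≤ 2 * (1 / 2) * u + 2 * b * y - 2 * g := by linarith [T.obt]
      have h2 := mul_nonneg (I.hf 5 (by omega)).le hδ
      have h3 := mul_pos (by linarith [I.pos 5 (by omega) (by omega)] : 0 < sq b 5) hc
      linarith
    have hn : fe (1 / 2) b 0 u y g 5 ^ 2 + fe (1 / 2) b 0 u y g 6 ^ 2 + u ^ 2 -
      2 * b * fe (1 / 2) b 0 u y g 5 * fe (1 / 2) b 0 u y g 6 -
      fw (1 / 2) 0 6 * u * fe (1 / 2) b 0 u y g 5 -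
      fw (1 / 2) 0 5 * u * fe (1 / 2) b 0 u y g 6 = 1 := fe_n T.h T.hy 5
    have hr' : u + 1 ≤ fw (1 / 2) 0 5 * fe (1 / 2) b 0 u y g 4 + fw (1 / 2) 0 4 * fe (1 / 2) b 0 u y g 5 := hr
    have hL' : g - τ * y + u * (2 * b * τ - 1 - e) = (1 - b * τ) * fe (1 / 2) b 0 u y g 5 +
      τ * (fe (1 / 2) b 0 u y g 4 - b * fe (1 / 2) b 0 u y g 5 - fw (1 / 2) 0 5 / 2 * u) +
      (fw (1 / 2) 0 5 / 2 * τ + ev (1 / 2) b 0 τ (2 * b * τ - 1 - e) 4) * u := hL
    have i2' : ev (1 / 2) b 0 τ (2 * b * τ - 1 - e) 4 = 2 * b * τ - 1 - e - 2 * 0 * τ := i2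
    rw [w5, w6] at hn
    rw [w5, w4] at hr'
    rw [w5, i2'] at hL'
    rw [e2, e3] at i1
    rw [← hsd] at hs hv he hra hL'
    have h6 : 1 ≤ s * (s ^ 2 - 1) * (s ^ 2 - 3) := by
      rcases I.alt with ⟨-, h, -⟩ | ⟨-, h, -⟩
      · rw [e6] at h
        exact h
      · exfalso
        rw [e6] at h
        have h1 : 0 < s * (s ^ 2 - 1) * (s ^ 2 - 3) :=
          mul_pos (mul_pos (by linarith) (by linarith)) (by linarith)
        linarith
    have hb : b = s / 2 := by linarith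
    obtain ⟨B, hB⟩ : ∃ B, B = fe (1 / 2) b 0 u y g 5 := ⟨_, rfl⟩
    obtain ⟨F, hF⟩ : ∃ F, F = fe (1 / 2) b 0 u y g 4 := ⟨_, rfl⟩
    rw [f6, ← hB, ← hF] at hdp hn
    rw [f3, ← hB, ← hF] at f5
    rw [← hB] at hr'
    rw [← hB, ← hF] at hL'
    have hj := j6 (s := s) (p := s ^ 2 - 1) (e := e) (A := s * B - F) (B := B) (U := u) (by linarith) rfl hs h6 he he0
      he1 hu (by linarith) (by linarith) (by
        rw [hb] at hβ
        linarith) (by
        rw [hb] at hn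
        linear_combination hn)
    have hlow : g - τ * y + u * (s * τ - 1 - e) ≤ g + u * r1 + y * r := by
      have h1 : u * (-e) ≤ u * (r1 + s * r + 1) := mul_le_mul_of_nonneg_left hra (by linarith)
      have h2 : 0 ≤ (r + τ) * (y - s * u) := mul_nonneg (by linarith [hI.hr]) hv.le
      linarith
    have h7 : B - τ * (s * B - F) + (s * τ - 1 - e) * u ≤ 1 := by
      rw [hb] at hL'
      linarith
    have h8 : (s ^ 2 - 1) * (B - τ * (s * B - F) + (s * τ - 1 - e) * u) ≤ (s ^ 2 - 1) * 1 :=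
      mul_le_mul_of_nonneg_left h7 (by linarith)
    have h9 : (s ^ 2 - 1) * (B - τ * (s * B - F) + (s * τ - 1 - e) * u) =
        (s ^ 2 - 1) * B - s * (s * B - F) - e ^ 2 * u := by
      linear_combination (s * u - (s * B - F)) * i1 + u * he
    rw [h9] at h8
    linarith
  | n + 4, I, hI =>
    obtain ⟨s, hsd⟩ : ∃ s, s = 2 * b := ⟨_, rfl⟩
    have e6 : sq b 6 = s * (s ^ 2 - 1) * (s ^ 2 - 3) := by
      rw [hsd]
      show 2 * b * (2 * b * (2 * b * (2 * b * (2 * b * 1 - 0) - 1) - (2 * b * 1 - 0)) -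
        (2 * b * (2 * b * 1 - 0) - 1)) - (2 * b * (2 * b * (2 * b * 1 - 0) - 1) - (2 * b * 1 - 0)) = _
      ring
    have h6 : 1 ≤ s * (s ^ 2 - 1) * (s ^ 2 - 3) := by
      rw [← e6]
      exact I.pos 6 (by omega) (by omega)
    have hs0 : 0 < s := by linarith
    refine hI.corner' (ke := e) (μ := 2 * b) (ν := 1) T hX hX' hra hv.le ?_
    rw [← hsd] at hs he
    have nn : ∀ i, i ≤ n + 6 → 0 ≤ sq b i := by
      intro i hi
      rcases Nat.eq_zero_or_pos i with h | h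
      · rw [h]
        exact le_rfl
      · linarith [I.pos i h (by omega)]
    rcases Nat.even_or_odd' n with ⟨m, rfl | rfl⟩
    · -- odd index
      obtain ⟨i1, i2⟩ := odd_ix (b1 := 1 / 2) (bO := 0) (b2 := b) (τ := τ) (l := m + 2)
        (by
          have := I.pos (2 * m + 6) (by omega) (by omega)
          have e : 2 * (m + 2) + 2 = 2 * m + 6 := by ring
          rw [e]
          linarith) (by
          have := I.hd
          have e : 2 * (m + 2) + 2 = 2 * m + 6 := by ring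
          have e' : 2 * (m + 2) + 1 = 2 * m + 5 := by ring
          rw [e, e']
          exact this) (2 * b * τ - 1 - e)
      have q2 : sq b (m + 2) = s * sq b (m + 1) - sq b m := by rw [hsd]; rfl
      have q3 : sq b (m + 3) = s * sq b (m + 2) - sq b (m + 1) := by rw [hsd]; rfl
      have q4 : sq b (m + 4) = s * sq b (m + 3) - sq b (m + 2) := by rw [hsd]; rfl
      have i1' : τ * (sq b (m + 4) + sq b (m + 3)) = sq b (m + 3) + sq b (m + 2) := i1
      have i2' : (ev (1 / 2) b 0 τ (2 * b * τ - 1 - e) (2 * (m + 2) + 1) - (2 * b * τ - 1 - e)) *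
        (sq b (m + 4) + sq b (m + 3)) = -2 * (0 * sq b (m + 3) + 1 / 2 * sq b (m + 2)) := i2
      have p4 := I.pos (m + 4) (by omega) (by omega)
      have p3 := I.pos (m + 3) (by omega) (by omega)
      have ek : 2 * m + 4 + 1 = 2 * (m + 2) + 1 := by ring
      have ek2 : 2 * m + 4 + 2 = 2 * (m + 3) := by ring
      rw [ek, ek2, fw0]
      obtain ⟨V, hV⟩ : ∃ V, V = ev (1 / 2) b 0 τ (2 * b * τ - 1 - e) (2 * (m + 2) + 1) := ⟨_, rfl⟩
      rw [← hV] at i2' ⊢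
      have hT : 0 < sq b (m + 4) + sq b (m + 3) := by linarith
      have key : (1 / 2 * τ + V) * (sq b (m + 4) + sq b (m + 3)) =
          (1 / 2) * (sq b (m + 3) + sq b (m + 2)) + s * (sq b (m + 3) + sq b (m + 2)) -
          (1 + e) * (sq b (m + 4) + sq b (m + 3)) - sq b (m + 2) := by
        rw [hsd]
        linear_combination (1 / 2 + 2 * b) * i1' + i2'
      have hp : 0 < (1 / 2 * τ + V) * (sq b (m + 4) + sq b (m + 3)) := by
        rw [key]
        rw [q4, q3, q2] at hT ⊢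
        exact odd_pos hs0 rfl hs h6 he he0 he1 (nn m (by omega)) hT
      exact (pos_iff_pos_of_mul_pos hp).2 hT
    · -- even index
      obtain ⟨i1, i2⟩ := even_ix (b1 := 1 / 2) (bO := 0) (b2 := b) (τ := τ) (l := m + 2)
        (by
          have := I.pos (2 * m + 7) (by omega) (by omega)
          have e : 2 * (m + 2) + 3 = 2 * m + 7 := by ring
          rw [e]
          linarith) (by
          have := I.hd
          have e : 2 * (m + 2) + 3 = 2 * m + 7 := by ring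
          have e' : 2 * (m + 2) + 2 = 2 * m + 6 := by ring
          rw [e, e']
          exact this) (2 * b * τ - 1 - e)
      have q2 : sq b (m + 2) = s * sq b (m + 1) - sq b m := by rw [hsd]; rfl
      have q3 : sq b (m + 3) = s * sq b (m + 2) - sq b (m + 1) := by rw [hsd]; rfl
      have q4 : sq b (m + 4) = s * sq b (m + 3) - sq b (m + 2) := by rw [hsd]; rfl
      have i1' : τ * sq b (m + 4) = sq b (m + 3) := i1
      have p4 := I.pos (m + 4) (by omega) (by omega)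
      have ek : 2 * m + 1 + 4 + 1 = 2 * (m + 2) + 2 := by ring
      have ek2 : 2 * m + 1 + 4 + 2 = 2 * (m + 3) + 1 := by ring
      rw [ek, ek2, fw1, i2]
      have hT : 0 < sq b (m + 4) := by linarith
      have key : (0 / 2 * τ + (2 * b * τ - 1 - e - 2 * 0 * τ)) * sq b (m + 4) =
          sq b (m + 2) - e * sq b (m + 4) := by
        rw [hsd] at q4
        linear_combination 2 * b * i1' - q4
      have hp : 0 < (0 / 2 * τ + (2 * b * τ - 1 - e - 2 * 0 * τ)) * sq b (m + 4) := by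
        rw [key]
        rw [q4, q3, q2] at hT ⊢
        exact even_pos rfl hs he he0 he1 (nn m (by omega)) hT
      exact (pos_iff_pos_of_mul_pos hp).2 hT

end Pool.Agent.Helper97.DY
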