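import Pool.Agent.Helper97.DY.N6
import Pool.Agent.Helper89.DY.Mir3
import Pool.Agent.Helper29.DY.Gt

/-!
# GAP1, `h ≠ d2` (MP_d13a5e_al)
-/

set_option autoImplicit false

namespace Pool.Agent.Helper97.DY

open Set
open _root_.DY (G1M G1n g1m_all)

variable {E : Type*} [AddCommGroup E] [Module ℝ E]

theorem g1m97 (Ψ : Set E) (B : E →ₗ[ℝ] E →ₗ[ℝ] ℝ) : G1M Ψ B := by
  refine g1m_all fun b bO R κ f q1 r g x1 x2 g' x1' x2' k τ e C h => ?_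
  exact _root_.DY.St29.g1r4 b bO R κ f q1 r g x1 x2 g' x1' x2' k τ e C (by linarith)

/-- **GAP1, `h ≠ d2`** -/
theorem g1n (Ψ : Set E) (B : E →ₗ[ℝ] E →ₗ[ℝ] ℝ) : G1n Ψ B := g1n_of Ψ B (g1m97 Ψ B)

end Pool.Agent.Helper97.DY
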